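import Pool.Agent.Lib.MP_2b5695_lc.Nw.Inst

/-!
The table of a try.
-/

namespace Pool.Agent.Lib.MP_2b5695_lc.Nw

open Alg Finset

variable {m n D L b : ℕ} {κ : Ty} (R : List Bool × (List Bool × List Bool) → Bool)
  (g : κ.El → Bool) (S : List Bool × Ty.history.El → (Ty.move κ).El)
  (x : List Bool) (θ room : ℕ) (U : List (List Bool))

open Classical in
/-- the entries of the table `U` that are needed for the position `p` -/
noncomputable def selT (a : Fin m → Fin n → Fin D → Bool) (p : Fin (L + 1) → Fin b)
    (Z : List Bool) : Bool :=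
  decide (∃ (v : Fin m → Fin n → Bool) (Y : List Bool),
    (nxtT (feasW R) costW (XT x L b θ room (updT a p v), U) Y).head? = some Z ∧
      val (costW Z) ≠ csT p)

/-- the table for the position `p` -/
noncomputable def tabT (a : Fin m → Fin n → Fin D → Bool) (p : Fin (L + 1) → Fin b) :
    List (List Bool) := U.filter (selT R x θ room U a p)

theorem selT_upd (a : Fin m → Fin n → Fin D → Bool) (p : Fin (L + 1) → Fin b)
    (v : Fin m → Fin n → Bool) : selT R x θ room U (updT a p v) p = selT R x θ room U a p := by
  have h : ∀ v', updT (updT a p v) p v' = updT a p v' := fun v' => updT_updT a p v v'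
  funext Z
  rw [selT, selT, decide_eq_decide]
  refine exists_congr fun v' => ?_
  rw [h]

theorem tabT_upd (a : Fin m → Fin n → Fin D → Bool) (p : Fin (L + 1) → Fin b)
    (v : Fin m → Fin n → Bool) : tabT R x θ room U (updT a p v) p = tabT R x θ room U a p := by
  rw [tabT, tabT, selT_upd]

/-- the first feasible entry whose cost is that of the position `p` -/
private noncomputable def fstT (a : Fin m → Fin n → Fin D → Bool) (p : Fin (L + 1) → Fin b) :
    Option (List Bool) :=
  (U.filter fun Z => feasW R (XT x L b θ room a, Z) && decide (val (costW Z) = csT p)).head?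

private theorem feasW_pos {a : Fin m → Fin n → Fin D → Bool} {Z : List Bool}
    (h : feasW R (XT x L b θ room a, Z) = true) : ∃ p : Fin (L + 1) → Fin b,
      (decS Z).1 = digT p ∧ val (costW Z) = csT p := by
  obtain ⟨-, p, hp, -⟩ := feasW_XT.1 h
  exact ⟨p, hp, costW_eq hp⟩

private theorem fstT_congr {a a' : Fin m → Fin n → Fin D → Bool} {p : Fin (L + 1) → Fin b}
    (h : blkT a p = blkT a' p) : fstT R x θ room U a p = fstT R x θ room U a' p := by
  have key : ∀ (a a' : Fin m → Fin n → Fin D → Bool), blkT a p = blkT a' p →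
      ∀ Z, val (costW Z) = csT p → feasW R (XT x L b θ room a, Z) = true →
        feasW R (XT x L b θ room a', Z) = true := by
    intro a a' h Z hc hf
    obtain ⟨p', hp1, hp2⟩ := feasW_pos R x θ room hf
    have e : p' = p := csT_eq_iff.1 (hp2.symm.trans hc)
    subst e
    rw [← feasW_congr hp1 h]
    exact hf
  unfold fstT
  refine congrArg List.head? (List.filter_congr fun Z _ => ?_)
  rw [Bool.eq_iff_iff, Bool.and_eq_true, Bool.and_eq_true, decide_eq_true_eq]
  constructor
  · rintro ⟨h1, h2⟩
    exact ⟨key a a' h Z h2 h1, h2⟩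
  · rintro ⟨h1, h2⟩
    exact ⟨key a' a h.symm Z h2 h1, h2⟩

private theorem selT_fst {a : Fin m → Fin n → Fin D → Bool} {p : Fin (L + 1) → Fin b}
    {Z : List Bool} (h : selT R x θ room U a p Z = true) :
    ∃ (v : Fin m → Fin n → Bool) (p' : Fin (L + 1) → Fin b), p' ≠ p ∧
      fstT R x θ room U (updT a p v) p' = some Z := by
  classical
  unfold selT at h
  obtain ⟨v, Y, h1, h2⟩ := of_decide_eq_true h
  have hmem : Z ∈ nxtT (feasW R) costW (XT x L b θ room (updT a p v), U) Y :=
    List.mem_of_head? h1
  rw [nxtT, List.mem_filter, Bool.and_eq_true, decide_eq_true_eq] at hmem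
  obtain ⟨-, hF, hY⟩ := hmem
  obtain ⟨p', hp1, hp2⟩ := feasW_pos R x θ room hF
  refine ⟨v, p', fun e => h2 (by rw [← e]; exact hp2), ?_⟩
  have h3 : (U.filter fun Z => feasW R (XT x L b θ room (updT a p v), Z) &&
      decide (val (costW Z) = csT p')) =
      (nxtT (feasW R) costW (XT x L b θ room (updT a p v), U) Y).filter
        (fun Z => decide (val (costW Z) = csT p')) := by
    rw [nxtT, List.filter_filter]
    refine List.filter_congr fun Z' _ => ?_
    rw [Bool.eq_iff_iff, Bool.and_eq_true, Bool.and_eq_true, Bool.and_eq_true, decide_eq_true_eq,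
      decide_eq_true_eq]
    constructor
    · rintro ⟨a1, a2⟩
      exact ⟨a2, a1, by rw [a2, ← hp2]; exact hY⟩
    · rintro ⟨a1, a2, -⟩
      exact ⟨a2, a1⟩
  unfold fstT
  rw [h3]
  cases hn : nxtT (feasW R) costW (XT x L b θ room (updT a p v), U) Y with
  | nil =>
    rw [hn] at h1
    simp at h1
  | cons W l =>
    rw [hn, List.head?_cons, Option.some.injEq] at h1
    subst h1
    rw [List.filter_cons_of_pos (by rw [decide_eq_true_eq]; exact hp2), List.head?_cons]

open Classical in
private theorem card_fst (a : Fin m → Fin n → Fin D → Bool) {p p' : Fin (L + 1) → Fin b}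
    (h : p ≠ p') : ((univ : Finset (Fin m → Fin n → Bool)).image fun v =>
      fstT R x θ room U (updT a p v) p').card ≤ 2 ^ L := by
  refine le_trans ?_ (card_variants a h)
  have h1 : ((univ : Finset (Fin m → Fin n → Bool)).image fun v =>
      fstT R x θ room U (updT a p v) p') ⊆
      ((univ : Finset (Fin m → Fin n → Bool)).image fun v => blkT (updT a p v) p').image
        (fun w => if hw : ∃ v, blkT (updT a p v) p' = w then
          fstT R x θ room U (updT a p hw.choose) p' else none) := by
    intro z hz
    obtain ⟨v, -, rfl⟩ := Finset.mem_image.1 hz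
    refine Finset.mem_image.2 ⟨blkT (updT a p v) p',
      Finset.mem_image.2 ⟨v, Finset.mem_univ _, rfl⟩, ?_⟩
    have hw : ∃ v', blkT (updT a p v') p' = blkT (updT a p v) p' := ⟨v, rfl⟩
    rw [dif_pos hw]
    exact fstT_congr R x θ room U hw.choose_spec
  exact (Finset.card_le_card h1).trans Finset.card_image_le

/-- the table is small -/
theorem length_tabT (hU : U.Nodup) (hs : U.Pairwise fun Z Z' => val (costW Z) ≤ val (costW Z'))
    (a : Fin m → Fin n → Fin D → Bool) (p : Fin (L + 1) → Fin b) :
    (tabT R x θ room U a p).length ≤ b ^ (L + 1) * 2 ^ L := by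
  classical
  have hnd : (tabT R x θ room U a p).Nodup := hU.filter _
  rw [← List.toFinset_card_of_nodup hnd,
    ← Finset.card_image_of_injective _ (Option.some_injective _)]
  have h1 : (tabT R x θ room U a p).toFinset.image some ⊆
      ((univ : Finset (Fin (L + 1) → Fin b)).filter fun p' => p' ≠ p).biUnion fun p' =>
        (univ : Finset (Fin m → Fin n → Bool)).image fun v =>
          fstT R x θ room U (updT a p v) p' := by
    intro z hz
    obtain ⟨Z, hZ, rfl⟩ := Finset.mem_image.1 hz
    rw [List.mem_toFinset, tabT, List.mem_filter] at hZ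
    obtain ⟨v, p', hp', hv⟩ := selT_fst R x θ room U hZ.2
    exact Finset.mem_biUnion.2 ⟨p', Finset.mem_filter.2 ⟨Finset.mem_univ _, hp'⟩,
      Finset.mem_image.2 ⟨v, Finset.mem_univ _, hv⟩⟩
  refine (Finset.card_le_card h1).trans (Finset.card_biUnion_le.trans ?_)
  refine (Finset.sum_le_sum fun p' hp' =>
    card_fst R x θ room U a (Ne.symm (Finset.mem_filter.1 hp').2)).trans ?_
  rw [Finset.sum_const, smul_eq_mul]
  refine Nat.mul_le_mul_right _ ((Finset.card_filter_le _ _).trans ?_)
  rw [Finset.card_univ, Fintype.card_fun, Fintype.card_fin, Fintype.card_fin]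

/-- the simulated computation for the position `p` finds a solution for the word of the
coordinate `k` -/
def SimT (T : ℕ) (a : Fin m → Fin n → Fin D → Bool) (p : Fin (L + 1) → Fin b) (k : Fin m) :
    Prop :=
  ∃ y ∈ [] :: (wordsT S (XT x L b θ room a) (histT (feasW R) costW g S
    (XT x L b θ room a, tabT R x θ room U a p) (un T))).flatMap (fun Y => (decS Y).2),
    R (x, (zw (blkT a p k), y)) = true

end Pool.Agent.Lib.MP_2b5695_lc.Nw
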