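import Mathlib

/-!
Covering by random choices.
-/

namespace Pool.Agent.Lib.MP_2b5695_lc.Nw

open Finset

open Classical in
theorem exists_cover {T Z : Type} [Fintype T] [Nonempty T] (S : Finset Z) (Hit : T → Z → Prop)
    {η : ℝ} {K : ℕ}
    (h : ∀ z ∈ S, η * Fintype.card T ≤ (((univ : Finset T).filter fun x => Hit x z).card : ℝ))
    (hK : (S.card : ℝ) < Real.exp (η * K)) :
    ∃ l : List T, l.length = K ∧ ∀ z ∈ S, ∃ x ∈ l, Hit x z := by
  by_contra hcon
  push Not at hcon
  set N : ℝ := (Fintype.card T : ℝ) with hN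
  have hN0 : 0 < N := by
    rw [hN]
    exact_mod_cast Fintype.card_pos
  -- every function misses some point
  have h1 : ∀ f : Fin K → T, ∃ z ∈ S, ∀ i, ¬ Hit (f i) z := by
    intro f
    obtain ⟨z, hz, hz2⟩ := hcon (List.ofFn f) (List.length_ofFn)
    exact ⟨z, hz, fun i => hz2 (f i) (List.mem_ofFn.2 ⟨i, rfl⟩)⟩
  have h2 : (univ : Finset (Fin K → T)) ⊆ S.biUnion fun z =>
      Fintype.piFinset fun _ : Fin K => (univ : Finset T).filter fun x => ¬ Hit x z := by
    intro f _
    obtain ⟨z, hz, hz2⟩ := h1 f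
    refine Finset.mem_biUnion.2 ⟨z, hz, Fintype.mem_piFinset.2 fun i => ?_⟩
    exact Finset.mem_filter.2 ⟨Finset.mem_univ _, hz2 i⟩
  have h3 : (Fintype.card T) ^ K ≤
      ∑ z ∈ S, (((univ : Finset T).filter fun x => ¬ Hit x z).card) ^ K := by
    have h4 := (Finset.card_le_card h2).trans Finset.card_biUnion_le
    have h5 : (univ : Finset (Fin K → T)).card = (Fintype.card T) ^ K := by
      rw [Finset.card_univ, Fintype.card_fun, Fintype.card_fin]
    rw [h5] at h4
    refine h4.trans (le_of_eq (Finset.sum_congr rfl fun z _ => ?_))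
    rw [Fintype.card_piFinset, Finset.prod_const, Finset.card_univ, Fintype.card_fin]
  have h6 : ∀ z ∈ S, ((((univ : Finset T).filter fun x => ¬ Hit x z).card : ℝ)) ^ K ≤
      N ^ K * Real.exp (-(η * K)) := by
    intro z hz
    have h7 : (((univ : Finset T).filter fun x => Hit x z).card : ℝ) +
        (((univ : Finset T).filter fun x => ¬ Hit x z).card : ℝ) = N := by
      rw [hN]
      have := Finset.card_filter_add_card_filter_not (s := (univ : Finset T)) (fun x => Hit x z)
      rw [Finset.card_univ] at this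
      exact_mod_cast this
    have h8 : (((univ : Finset T).filter fun x => ¬ Hit x z).card : ℝ) ≤ N * Real.exp (-η) := by
      have h9 := h z hz
      have h10 := Real.add_one_le_exp (-η)
      nlinarith
    refine (pow_le_pow_left₀ (Nat.cast_nonneg _) h8 K).trans (le_of_eq ?_)
    rw [mul_pow, ← Real.exp_nat_mul]
    congr 2
    ring
  have h11 : N ^ K ≤ S.card * (N ^ K * Real.exp (-(η * K))) := by
    have h12 : N ^ K ≤ ∑ z ∈ S, ((((univ : Finset T).filter fun x => ¬ Hit x z).card : ℝ)) ^ K := by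
      rw [hN]
      exact_mod_cast h3
    refine h12.trans ((Finset.sum_le_sum h6).trans (le_of_eq ?_))
    rw [Finset.sum_const, nsmul_eq_mul]
  have h13 : 0 < N ^ K := pow_pos hN0 K
  have h14 : Real.exp (-(η * K)) * Real.exp (η * K) = 1 := by
    rw [← Real.exp_add]
    simp
  have h15 : 0 < Real.exp (-(η * K)) := Real.exp_pos _
  have h16 : (S.card : ℝ) * Real.exp (-(η * K)) < 1 := by
    rw [← h14, mul_comm]
    exact mul_lt_mul_of_pos_left hK h15
  nlinarith

end Pool.Agent.Lib.MP_2b5695_lc.Nw
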