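import Mathlib

/-!
The combinatorial design of Nisan and Wigderson: integer polynomials of small degree.
-/

namespace Pool.Agent.Lib.MP_2b5695_lc.Nw

open Finset

/-- the value of the polynomial `p` at the point that belongs to `k` and `j` -/
def ix (n : ℕ) {L b : ℕ} (p : Fin (L + 1) → Fin b) (k j : ℕ) : ℕ :=
  ∑ i, (p i : ℕ) * (k * n + j) ^ (i : ℕ)

variable {m n D L b : ℕ}

/-- the words that belong to the position `p` in the table `a` -/
def blkT (a : Fin m → Fin n → Fin D → Bool) (p : Fin (L + 1) → Fin b) : Fin m → Fin n → Bool :=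
  fun k j => if h : ix n p k j < D then a k j ⟨ix n p k j, h⟩ else false

/-- the table where the words that belong to the position `p` are replaced -/
def updT (a : Fin m → Fin n → Fin D → Bool) (p : Fin (L + 1) → Fin b)
    (v : Fin m → Fin n → Bool) : Fin m → Fin n → Fin D → Bool :=
  fun k j d => if (d : ℕ) = ix n p k j then v k j else a k j d

theorem ix_lt (p : Fin (L + 1) → Fin b) {e0 : ℕ} (he : 1 ≤ e0) (k : Fin m) (j : Fin n)
    (h : m * n ≤ e0) (hD : (L + 1) * b * e0 ^ L ≤ D) : ix n p k j < D := by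
  have h0 : (k : ℕ) * n + j ≤ e0 := by
    have h9 : (k : ℕ) + 1 ≤ m := k.2
    have h10 : ((k : ℕ) + 1) * n ≤ m * n := Nat.mul_le_mul_right _ h9
    have h11 : ((k : ℕ) + 1) * n = k * n + n := by ring
    have h12 := j.2
    omega
  have h1 : ∀ i : Fin (L + 1), (p i : ℕ) * ((k : ℕ) * n + j) ^ (i : ℕ) < b * e0 ^ L := by
    intro i
    have h2 : ((k : ℕ) * n + j) ^ (i : ℕ) ≤ e0 ^ L :=
      (Nat.pow_le_pow_left h0 _).trans (Nat.pow_le_pow_right he (by have := i.2; omega))
    have h3 : 1 ≤ e0 ^ L := Nat.one_le_pow _ _ he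
    calc (p i : ℕ) * ((k : ℕ) * n + j) ^ (i : ℕ) ≤ (p i : ℕ) * e0 ^ L :=
          Nat.mul_le_mul_left _ h2
      _ < b * e0 ^ L := Nat.mul_lt_mul_of_pos_right (p i).2 h3
  calc ix n p k j < ∑ _i : Fin (L + 1), b * e0 ^ L :=
        Finset.sum_lt_sum_of_nonempty Finset.univ_nonempty fun i _ => h1 i
    _ = (L + 1) * b * e0 ^ L := by simp; ring
    _ ≤ D := hD

theorem updT_blkT (a : Fin m → Fin n → Fin D → Bool) (p : Fin (L + 1) → Fin b) :
    updT a p (blkT a p) = a := by
  funext k j d
  rw [updT]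
  split_ifs with h
  · rw [blkT, dif_pos (by rw [← h]; exact d.2)]
    congr 1
    exact Fin.ext h.symm
  · rfl

theorem blkT_updT (hD : ∀ (p : Fin (L + 1) → Fin b) (k : Fin m) (j : Fin n), ix n p k j < D)
    (a : Fin m → Fin n → Fin D → Bool) (p : Fin (L + 1) → Fin b) (v : Fin m → Fin n → Bool) :
    blkT (updT a p v) p = v := by
  funext k j
  rw [blkT, dif_pos (hD p k j), updT, if_pos rfl]

theorem updT_updT (a : Fin m → Fin n → Fin D → Bool) (p : Fin (L + 1) → Fin b)
    (v v' : Fin m → Fin n → Bool) : updT (updT a p v) p v' = updT a p v' := by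
  funext k j d
  simp only [updT]
  split_ifs <;> rfl

theorem agree_le {p p' : Fin (L + 1) → Fin b} (h : p ≠ p') (E : Finset ℕ)
    (hE : ∀ e ∈ E, ∑ i, (p i : ℕ) * e ^ (i : ℕ) = ∑ i, (p' i : ℕ) * e ^ (i : ℕ)) :
    E.card ≤ L := by
  classical
  set Q : Polynomial ℤ := ∑ i : Fin (L + 1),
    Polynomial.C (((p i : ℕ) : ℤ) - ((p' i : ℕ) : ℤ)) * Polynomial.X ^ (i : ℕ) with hQ
  have hcoeff : ∀ i : Fin (L + 1), Q.coeff (i : ℕ) = ((p i : ℕ) : ℤ) - ((p' i : ℕ) : ℤ) := by
    intro i
    rw [hQ, Polynomial.finsetSum_coeff]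
    rw [Finset.sum_eq_single i]
    · rw [Polynomial.coeff_C_mul, Polynomial.coeff_X_pow, if_pos rfl, mul_one]
    · intro j _ hj
      rw [Polynomial.coeff_C_mul, Polynomial.coeff_X_pow, if_neg, mul_zero]
      intro h'
      exact hj (Fin.ext h'.symm)
    · intro h'; exact absurd (Finset.mem_univ _) h'
  have hne : Q ≠ 0 := by
    intro h0
    apply h
    funext i
    have h1 := hcoeff i
    rw [h0, Polynomial.coeff_zero] at h1
    apply Fin.ext
    omega
  have hdeg : Q.natDegree ≤ L := by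
    rw [hQ]
    refine Polynomial.natDegree_sum_le_of_forall_le _ _ fun i _ => ?_
    exact (Polynomial.natDegree_C_mul_X_pow_le _ _).trans (by have := i.2; omega)
  have hroot : ∀ e ∈ E, Q.eval (e : ℤ) = 0 := by
    intro e he
    rw [hQ, Polynomial.eval_finsetSum]
    have h1 := hE e he
    have h2 : (∑ i : Fin (L + 1), ((p i : ℕ) : ℤ) * (e : ℤ) ^ (i : ℕ)) =
        ∑ i : Fin (L + 1), ((p' i : ℕ) : ℤ) * (e : ℤ) ^ (i : ℕ) := by exact_mod_cast h1
    simp only [Polynomial.eval_mul, Polynomial.eval_C, Polynomial.eval_pow, Polynomial.eval_X,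
      sub_mul, Finset.sum_sub_distrib]
    rw [h2, sub_self]
  have h3 : (E.image fun e : ℕ => (e : ℤ)).card ≤ Q.natDegree := by
    refine Polynomial.card_le_degree_of_subset_roots ?_
    intro x hx
    rw [Finset.mem_val, Finset.mem_image] at hx
    obtain ⟨e, he, rfl⟩ := hx
    rw [Polynomial.mem_roots hne]
    exact hroot e he
  rw [Finset.card_image_of_injective _ fun x y hxy => by exact_mod_cast hxy] at h3
  exact h3.trans hdeg

open Classical in
theorem card_variants (a : Fin m → Fin n → Fin D → Bool) {p p' : Fin (L + 1) → Fin b}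
    (h : p ≠ p') :
    ((univ : Finset (Fin m → Fin n → Bool)).image fun v => blkT (updT a p v) p').card ≤ 2 ^ L := by
  set G : Finset (Fin m × Fin n) := univ.filter fun x => ix n p' x.1 x.2 = ix n p x.1 x.2 with hG
  have hGcard : G.card ≤ L := by
    have h1 : (G.image fun x => (x.1 : ℕ) * n + x.2).card ≤ L := by
      refine agree_le h _ fun e he => ?_
      rw [Finset.mem_image] at he
      obtain ⟨x, hx, rfl⟩ := he
      rw [hG, Finset.mem_filter] at hx
      exact hx.2.symm
    rw [Finset.card_image_of_injOn] at h1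
    · exact h1
    · rintro ⟨k, j⟩ _ ⟨k', j'⟩ _ hxy
      simp only at hxy
      have hn : 0 < n := by have := j.2; omega
      have h2 : ((k : ℕ) * n + j) / n = ((k' : ℕ) * n + j') / n := by rw [hxy]
      rw [mul_comm, Nat.mul_add_div hn, mul_comm, Nat.mul_add_div hn, Nat.div_eq_of_lt j.2,
        Nat.div_eq_of_lt j'.2] at h2
      have h3 : (k : ℕ) = k' := by omega
      rw [h3] at hxy
      have h4 : (j : ℕ) = j' := by omega
      rw [Prod.mk.injEq]
      exact ⟨Fin.ext h3, Fin.ext h4⟩
  set ψ : (G → Bool) → (Fin m → Fin n → Bool) := fun w k j =>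
    if hlt : ix n p' k j < D then
      (if hx : (k, j) ∈ G then w ⟨(k, j), hx⟩ else a k j ⟨ix n p' k j, hlt⟩) else false with hψ
  have hsub : ((univ : Finset (Fin m → Fin n → Bool)).image fun v => blkT (updT a p v) p') ⊆
      (univ : Finset (G → Bool)).image ψ := by
    intro f hf
    rw [Finset.mem_image] at hf
    obtain ⟨v, -, rfl⟩ := hf
    rw [Finset.mem_image]
    refine ⟨fun x => v x.1.1 x.1.2, Finset.mem_univ _, ?_⟩
    funext k j
    simp only [hψ, blkT, updT]
    split_ifs with h1 h2 h3 h3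
    · rfl
    · exfalso
      rw [hG, Finset.mem_filter] at h2
      exact h3 h2.2
    · exfalso
      apply h2
      rw [hG, Finset.mem_filter]
      exact ⟨Finset.mem_univ _, h3⟩
    · rfl
    · rfl
  refine (Finset.card_le_card hsub).trans (Finset.card_image_le.trans ?_)
  rw [Finset.card_univ, Fintype.card_fun, Fintype.card_bool, Fintype.card_coe]
  exact Nat.pow_le_pow_right (by norm_num) hGcard

end Pool.Agent.Lib.MP_2b5695_lc.Nw
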