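import Pool.Agent.Lib.MP_2b5695_lc.Nw.Main

/-!
If every optimization problem is computed by a counterexample computation, then search problems
are easy on average.
-/

namespace Pool.Agent.Lib.MP_2b5695_lc.Nw

open Alg Finset

variable {ι κ : Ty} {A : Set ι.El} {R : List Bool × (List Bool × List Bool) → Bool}

theorem theta_props {bet : ℝ} {t m : ℕ} (ht : 1 ≤ t) (h1 : bet ≤ 1) (h2 : (1 : ℝ) / t < bet) :
    (0 : ℝ) ≤ (bet - 1 / (2 * t)) * m ∧ ⌈(bet - 1 / (2 * t)) * m⌉₊ ≤ m := by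
  have htR : (0 : ℝ) < t := by exact_mod_cast ht
  constructor
  · refine mul_nonneg ?_ (Nat.cast_nonneg _)
    have : (1 : ℝ) / (2 * t) ≤ 1 / t := by
      apply one_div_le_one_div_of_le htR
      linarith
    linarith
  · rw [Nat.ceil_le]
    have h1 : (0 : ℝ) < 1 / (2 * t) := by positivity
    have h2 : (0 : ℝ) ≤ m := Nat.cast_nonneg _
    nlinarith

open Classical in
/-- The main theorem at the level zero. -/
theorem easy_of_computed (hR : PF A (.prod .word (.prod .word .word)) .bool R)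
    (p : Polynomial ℕ) (hcomp : Computed A 0 (feasN (RR R p)) costN) : EasyOnAverage A R p := by
  obtain ⟨κ, O, S, q, ⟨g, hg, hgO⟩, hS, hE⟩ := hcomp
  obtain ⟨Pe, hPe⟩ := exists_enc_le tySlt
  obtain ⟨Pi, hPi⟩ := exists_enc_le tyIns
  obtain ⟨Pt, hPt⟩ := exists_enc_le (.list tyTry)
  obtain ⟨a, ha⟩ := exists_pow_le (pTime Pe Pi q p)
  obtain ⟨s1, hs1⟩ := exists_lt_exp ((8 * a + 3) * (2 * a + 1) + 1)
  obtain ⟨s0, hs0⟩ : ∃ s0, s0 = s1 + 2 * a + 4 := ⟨_, rfl⟩
  refine ⟨(pAdv Pe Pi Pt q p a).comp (Polynomial.X + Polynomial.C s0), algT (RR R p) g S,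
    pf_algT (pf_RR hR p) hg hS, fun c n t => ?_⟩
  -- trivial cases
  by_cases htriv : t * (solS (RR R p) c n).card ≤ 2 ^ n
  · refine ⟨[], Nat.zero_le _, (Nat.mul_le_mul_left _ (Finset.card_le_card fun z hz => ?_)).trans
      htriv⟩
    obtain ⟨y, hy1, hy2⟩ := (Finset.mem_filter.1 hz).2.1
    rw [solS, Finset.mem_filter]
    refine ⟨Finset.mem_univ _, y, ?_⟩
    simp only [RR, zw, hy2, List.length_ofFn, Bool.true_and, decide_eq_true_eq]
    exact hy1
  push Not at htriv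
  have ht : 1 ≤ t := by
    by_contra h
    have : t = 0 := by omega
    rw [this] at htriv
    simp at htriv
  -- the parameters
  obtain ⟨s, hs⟩ : ∃ s, s = c.length + n + t + s0 := ⟨_, rfl⟩
  obtain ⟨b, hb⟩ : ∃ b, b = s ^ (8 * a + 3) := ⟨_, rfl⟩
  obtain ⟨m, hm⟩ : ∃ m, m = s ^ 3 := ⟨_, rfl⟩
  obtain ⟨D, hD⟩ : ∃ D, D = (2 * a + 1) * b * (s ^ 4) ^ (2 * a) := ⟨_, rfl⟩
  have hs1' : 1 ≤ s := by omega
  have hb1 : 1 ≤ b := by rw [hb]; exact Nat.one_le_pow _ _ hs1'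
  have hm1 : 1 ≤ m := by rw [hm]; exact Nat.one_le_pow _ _ hs1'
  have hcardZ : Fintype.card (Fin n → Bool) = 2 ^ n := by simp
  have htR : (0 : ℝ) < t := by exact_mod_cast ht
  have hbet1 : ((solS (RR R p) c n).card : ℝ) / Fintype.card (Fin n → Bool) ≤ 1 := by
    refine div_le_one_of_le₀ ?_ (by positivity)
    exact_mod_cast Finset.card_le_univ _
  have hbet2 : (1 : ℝ) / t <
      ((solS (RR R p) c n).card : ℝ) / Fintype.card (Fin n → Bool) := by
    rw [hcardZ, div_lt_div_iff₀ htR (by positivity), one_mul]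
    have : ((2 ^ n : ℕ) : ℝ) < ((t * (solS (RR R p) c n).card : ℕ) : ℝ) := by
      exact_mod_cast htriv
    push_cast at this ⊢
    linarith
  obtain ⟨hx0, hθm⟩ := theta_props (m := m) ht hbet1 hbet2
  have hθ1 := Nat.le_ceil
    ((((solS (RR R p) c n).card : ℝ) / Fintype.card (Fin n → Bool) - 1 / (2 * t)) * m)
  have hθ2 := Nat.ceil_lt_add_one hx0
  revert hθm hθ1 hθ2
  generalize ⌈(((solS (RR R p) c n).card : ℝ) / Fintype.card (Fin n → Bool) -
    1 / (2 * t)) * m⌉₊ = θ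
  intro hθm hθ1 hθ2
  have hlil : Lil c m n D (2 * a) b θ D := by
    rw [hm, hD, hb]
    exact lil_of hs1' (by omega) (by omega) (by omega) (by omega) (by rw [← hm]; exact hθm)
  have hixlt : ∀ (pp : Fin (2 * a + 1) → Fin b) (k : Fin m) (j : Fin n), ix n pp k j < D := by
    intro pp k j
    refine ix_lt pp (e0 := s ^ 4) (Nat.one_le_pow _ _ hs1') k j ?_ (le_of_eq hD.symm)
    calc m * n ≤ s ^ 3 * s := by rw [hm]; exact Nat.mul_le_mul_left _ (by omega)
      _ = s ^ 4 := by ring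
  obtain ⟨room, hroom⟩ : ∃ r, r = (pRoom Pe p).eval D := ⟨_, rfl⟩
  obtain ⟨T, hT⟩ : ∃ T, T = (pTime Pe Pi q p).eval D := ⟨_, rfl⟩
  obtain ⟨U, hU0, hU1, hU2, hU3⟩ := exists_table room
  have hTle : T ≤ ((2 * a + 1) * s ^ (8 * a + 3) * (s ^ 4) ^ (2 * a) + 2) ^ a := by
    rw [hT, ← hb, ← hD]
    exact ha D
  have hq : 4 * t * T ≤ b ^ (2 * a + 1) := by
    rw [hb]
    exact card_large (by omega) (by omega) hTle
  obtain ⟨pp, l, hl, hcard⟩ := exists_advice (R := R) (g := g) (S := S) (p := p) (c := c)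
    (U := U) (room := room) (L := 2 * a) (T := T) (K := (n + 1) * 8 * t * m * b ^ (2 * a + 1))
    hixlt ht hm1 hb1 hθ1 hθ2 hq
    (exp_cond ht (by omega) hm hb (hs1 s (by omega)))
    (fun tb htb => sim_of_computed (R := R) (p := p) hgO hE hPe hPi hlil hroom hT hU1 hU2 hU3 tb
      htb) (K_cond ht hm1 (Nat.one_le_pow _ _ hb1))
  refine ⟨_, ?_, hcard⟩
  have hK : (n + 1) * 8 * t * m * b ^ (2 * a + 1) ≤
      (s + 1) * 8 * s * s ^ 3 * b ^ (2 * a + 1) := by
    rw [hm]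
    have h1 : n + 1 ≤ s + 1 := by omega
    have h2 : t ≤ s := by omega
    gcongr
  refine (advice_length (R := RR R p) hPt hlil hU0 hU1 hU3 pp l hl hK).trans (le_of_eq ?_)
  have h6 : (pD a).eval s = D := by
    rw [eval_pD, hD, hb]
  rw [Polynomial.eval_comp]
  have h7 : (Polynomial.X + Polynomial.C s0 : Polynomial ℕ).eval (c.length + n + t) = s := by
    rw [Polynomial.eval_add, Polynomial.eval_X, Polynomial.eval_C, hs]
  rw [h7, eval_pAdv Pe Pi Pt q p a s h6 hroom hT hb]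

/-- The main theorem at all levels. -/
theorem easy_level {B : Set κ.El} {i : ℕ}
    (h : ∀ (C : ℕ → ℕ → Prop) (ρ : ℕ → ℕ), OptProblem A i C ρ → Computed A i C ρ)
    (hB : InSigma A i κ (fun q => q ∈ B)) (hR : PF B (.prod .word (.prod .word .word)) .bool R)
    (p : Polynomial ℕ) :
    ∃ (κ' : Ty) (B' : Set κ'.El), InSigma A i κ' (fun q => q ∈ B') ∧ EasyOnAverage B' R p := by
  obtain ⟨κ', B', h1, h2, h3⟩ := Up.transfer hB h (optNw (pf_RR hR p))
  exact ⟨κ', B', h1, easy_of_computed (Up.pf_mono h2 hR) p h3⟩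

end Pool.Agent.Lib.MP_2b5695_lc.Nw
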