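import Pool.Agent.Lib.MP_2b5695_lc.Alg.Def

/-!
Search problems that are easy on average.
-/

namespace Pool.Agent.Lib.MP_2b5695_lc.Nw

open Alg

open Classical in
/-- The search problem: given `c` and `z`, find `y` with `R (c, (z, y)) = true`, is easy on average
with advice, relative to `A`: there are a function `D` computable in polynomial time with the
oracle `A` and a polynomial `r` such that for all `c`, `n` and `t` there is an advice word `α` of
length at most `r (|c| + n + t)` with the following property. For all but a fraction `1 / t` of
the words `z` of length `n`: if there is `y` of length at most `p (|c| + n)` with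
`R (c, (z, y)) = true`, then `y = D (c, (z, α))` satisfies `R (c, (z, y)) = true`. -/
def EasyOnAverage {ι : Ty} (A : Set ι.El) (R : List Bool × (List Bool × List Bool) → Bool)
    (p : Polynomial ℕ) : Prop :=
  ∃ (r : Polynomial ℕ) (D : List Bool × (List Bool × List Bool) → List Bool),
    PF A (.prod .word (.prod .word .word)) .word D ∧
    ∀ (c : List Bool) (n t : ℕ), ∃ α : List Bool, α.length ≤ r.eval (c.length + n + t) ∧
      t * (Finset.univ.filter fun z : Fin n → Bool =>
        (∃ y : List Bool, y.length ≤ p.eval (c.length + n) ∧ R (c, (List.ofFn z, y)) = true) ∧
          ¬ R (c, (List.ofFn z, D (c, (List.ofFn z, α)))) = true).card ≤ 2 ^ n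

end Pool.Agent.Lib.MP_2b5695_lc.Nw
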