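import Pool.Agent.Lib.MP_2b5695_lc.Nw.Size
import Pool.Agent.Lib.MP_2b5695_lc.Nw.EasyDef
import Pool.Agent.Lib.MP_2b5695_lc.Up.Transfer

/-!
The choice of the parameters.
-/

namespace Pool.Agent.Lib.MP_2b5695_lc.Nw

open Alg Finset Polynomial

variable {ι κ : Ty} {A : Set ι.El} {R : List Bool × (List Bool × List Bool) → Bool}

/-- the relation with bounded solutions -/
def RR (R : List Bool × (List Bool × List Bool) → Bool) (p : Polynomial ℕ)
    (u : List Bool × (List Bool × List Bool)) : Bool :=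
  R u && decide (u.2.2.length ≤ p.eval (u.1.length + u.2.1.length))

theorem pf_unary' {a : Ty} {f : a.El → List Bool} (hf : PF A a .word f) :
    PF A a .word (fun v => List.replicate (f v).length true) :=
  (PF.map (b := .bool) (c := .bool) (φ := fun _ => true) hf (PF.tt _)).of_eq
    fun v => by rw [List.map_const']

theorem pf_RR (hR : PF A (.prod .word (.prod .word .word)) .bool R) (p : Polynomial ℕ) :
    PF A (.prod .word (.prod .word .word)) .bool (RR R p) := by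
  have h1 : PF A (.prod .word (.prod .word .word)) .word
      (fun u => List.replicate (u.1 ++ u.2.1).length true) :=
    pf_unary' ((PF.fst _ _).append (PF.snd _ _).fst')
  refine (hR.and' (PF.lengthLE (PF.snd _ _).snd' (PF.polyList h1 p))).of_eq fun u => ?_
  rw [RR, List.length_replicate, List.length_append]

theorem lil_of {x : List Bool} {n s L C θ : ℕ} (hs : 1 ≤ s) (hC : 3 ≤ C) (hx : x.length ≤ s)
    (hn : n ≤ s) (hL : L + 1 ≤ s) (hθ : θ ≤ s ^ 3) :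
    Lil x (s ^ 3) n ((L + 1) * s ^ C * (s ^ 4) ^ L) L (s ^ C) θ
      ((L + 1) * s ^ C * (s ^ 4) ^ L) := by
  have h1 : 1 ≤ (s ^ 4) ^ L := Nat.one_le_pow _ _ (Nat.one_le_pow _ _ hs)
  have h2 : 1 ≤ s ^ C := Nat.one_le_pow _ _ hs
  have h3 : s ^ C ≤ (L + 1) * s ^ C * (s ^ 4) ^ L := by
    calc s ^ C = 1 * s ^ C * 1 := by ring
      _ ≤ (L + 1) * s ^ C * (s ^ 4) ^ L :=
        Nat.mul_le_mul (Nat.mul_le_mul_right _ (by omega)) h1
  have h4 : s ≤ s ^ C := Nat.le_self_pow (by omega) s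
  have h5 : s ^ 3 ≤ s ^ C := Nat.pow_le_pow_right hs hC
  have h6 : (s ^ 4) ^ L ≤ (L + 1) * s ^ C * (s ^ 4) ^ L := by
    calc (s ^ 4) ^ L = 1 * (s ^ 4) ^ L := by ring
      _ ≤ ((L + 1) * s ^ C) * (s ^ 4) ^ L :=
        Nat.mul_le_mul_right _ (Nat.mul_pos (by omega) h2)
  refine ⟨by omega, by omega, by omega, le_rfl, by omega, h3, by omega, fun k j i => ?_⟩
  have h7 : (k : ℕ) * n + j ≤ s ^ 4 := by
    have h8 : (k : ℕ) * n + j ≤ s ^ 3 * n := by
      have h9 : (k : ℕ) + 1 ≤ s ^ 3 := k.2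
      have h10 : ((k : ℕ) + 1) * n ≤ s ^ 3 * n := Nat.mul_le_mul_right _ h9
      have h11 : ((k : ℕ) + 1) * n = k * n + n := by ring
      have h12 := j.2
      omega
    calc (k : ℕ) * n + j ≤ s ^ 3 * n := h8
      _ ≤ s ^ 3 * s := Nat.mul_le_mul_left _ hn
      _ = s ^ 4 := by ring
  calc ((k : ℕ) * n + j) ^ (i : ℕ) ≤ (s ^ 4) ^ (i : ℕ) := Nat.pow_le_pow_left h7 _
    _ ≤ (s ^ 4) ^ L := Nat.pow_le_pow_right (Nat.one_le_pow _ _ hs) (by have := i.2; omega)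
    _ ≤ _ := h6

/-- the number of positions is large -/
theorem card_large {a s t T : ℕ} (hs : 2 * a + 4 ≤ s) (ht : t ≤ s)
    (hT : T ≤ ((2 * a + 1) * s ^ (8 * a + 3) * (s ^ 4) ^ (2 * a) + 2) ^ a) :
    4 * t * T ≤ (s ^ (8 * a + 3)) ^ (2 * a + 1) := by
  have hs1 : 1 ≤ s := by omega
  have h1 : (2 * a + 1) * s ^ (8 * a + 3) * (s ^ 4) ^ (2 * a) + 2 ≤ s ^ (16 * a + 4) := by
    have h2 : 1 ≤ s ^ (8 * a + 3) * (s ^ 4) ^ (2 * a) :=
      Nat.mul_pos (Nat.pow_pos hs1) (Nat.pow_pos (Nat.pow_pos hs1))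
    calc (2 * a + 1) * s ^ (8 * a + 3) * (s ^ 4) ^ (2 * a) + 2
        ≤ (2 * a + 1) * (s ^ (8 * a + 3) * (s ^ 4) ^ (2 * a)) +
          2 * (s ^ (8 * a + 3) * (s ^ 4) ^ (2 * a)) := by
          rw [mul_assoc]; omega
      _ = (2 * a + 3) * (s ^ (8 * a + 3) * (s ^ 4) ^ (2 * a)) := by ring
      _ ≤ s * (s ^ (8 * a + 3) * (s ^ 4) ^ (2 * a)) := Nat.mul_le_mul_right _ (by omega)
      _ = s ^ (16 * a + 4) := by
        rw [← pow_mul, ← pow_add, ← pow_succ']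
        congr 1; ring
  calc 4 * t * T ≤ s * s * (s ^ (16 * a + 4)) ^ a :=
        Nat.mul_le_mul (Nat.mul_le_mul (by omega) ht) (hT.trans (Nat.pow_le_pow_left h1 _))
    _ = s ^ ((16 * a + 4) * a + 2) := by
        rw [← pow_mul, ← pow_two, ← pow_add]
        congr 1; ring
    _ ≤ s ^ ((8 * a + 3) * (2 * a + 1)) := Nat.pow_le_pow_right hs1 (by nlinarith)
    _ = _ := by rw [pow_mul]


section

variable (Pe Pi Pt q p : Polynomial ℕ)

/-- the room for solutions -/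
noncomputable def pRoom : Polynomial ℕ :=
  Pe.comp (X * (2 * X + 1) + X * (2 * (p.comp (2 * X)) + 1)) + 2

/-- the length of the input -/
noncomputable def pLen : Polynomial ℕ :=
  Pi.comp (8 * X + 2 * pRoom Pe p + X * (2 * X + X * (X * (4 * X + 1) + 2 * X + 1) + 1)) + 1

/-- the number of steps -/
noncomputable def pTime : Polynomial ℕ := q.comp (pLen Pe Pi p)

/-- the numbers in the instance -/
noncomputable def pD (a : ℕ) : Polynomial ℕ :=
  (C (2 * a + 1)) * X ^ (8 * a + 3) * (X ^ 4) ^ (2 * a)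

/-- the length of the advice -/
noncomputable def pAdv (a : ℕ) : Polynomial ℕ :=
  Pt.comp (((X + 1) * 8 * X * X ^ 3 * (X ^ (8 * a + 3)) ^ (2 * a + 1)) *
    ((8 * pD a + 2 * (pRoom Pe p).comp (pD a) + pD a * (2 * pD a + pD a * (pD a * (4 * pD a + 1)
      + 5 * pD a + 1) + 1)) + ((X ^ (8 * a + 3)) ^ (2 * a + 1) * 2 ^ (2 * a) *
      (2 * (pRoom Pe p).comp (pD a) + 1) + 2 * (pTime Pe Pi q p).comp (pD a)) + 1))

end

theorem exp_cond {a s t m b : ℕ} (ht : 1 ≤ t) (hts : t ≤ s) (hm : m = s ^ 3)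
    (hb : b = s ^ (8 * a + 3))
    (h1 : 8 * (s : ℝ) ^ ((8 * a + 3) * (2 * a + 1) + 1) < Real.exp ((s : ℝ) / 16)) :
    8 * (t : ℝ) * ((b ^ (2 * a + 1) : ℕ) : ℝ) < Real.exp ((m : ℝ) / (16 * (t : ℝ) ^ 2)) := by
  have htR : (0 : ℝ) < t := by exact_mod_cast ht
  have h2 : 8 * (t : ℝ) * ((b ^ (2 * a + 1) : ℕ) : ℝ) ≤
      8 * (s : ℝ) ^ ((8 * a + 3) * (2 * a + 1) + 1) := by
    have h3 : 8 * t * b ^ (2 * a + 1) ≤ 8 * s ^ ((8 * a + 3) * (2 * a + 1) + 1) := by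
      calc 8 * t * b ^ (2 * a + 1) ≤ 8 * s * b ^ (2 * a + 1) :=
            Nat.mul_le_mul_right _ (Nat.mul_le_mul_left _ hts)
        _ = 8 * s ^ ((8 * a + 3) * (2 * a + 1) + 1) := by
            rw [hb, ← pow_mul, pow_succ]; ring
    exact_mod_cast h3
  refine h2.trans_lt (h1.trans_le (Real.exp_le_exp.2 ?_))
  rw [div_le_div_iff₀ (by norm_num) (by positivity), hm]
  push_cast
  have h4 : (t : ℝ) ≤ s := by exact_mod_cast hts
  have h5 : (t : ℝ) ^ 2 ≤ (s : ℝ) ^ 2 := pow_le_pow_left₀ htR.le h4 2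
  have h6 : (0 : ℝ) ≤ s := Nat.cast_nonneg _
  calc (s : ℝ) * (16 * (t : ℝ) ^ 2) ≤ s * (16 * (s : ℝ) ^ 2) := by gcongr
    _ = (s : ℝ) ^ 3 * 16 := by ring

theorem K_cond {n t m B : ℕ} (ht : 1 ≤ t) (hm : 1 ≤ m) (hB : 1 ≤ B) :
    ((2 ^ n : ℕ) : ℝ) < Real.exp ((((n + 1) * 8 * t * m * B : ℕ) : ℝ) /
      (8 * (t : ℝ) * (m : ℝ) * (B : ℝ))) := by
  have htR : (0 : ℝ) < t := by exact_mod_cast ht
  have hmR : (0 : ℝ) < m := by exact_mod_cast hm
  have hBR : (0 : ℝ) < B := by exact_mod_cast hB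
  push_cast
  have h1 : ((n : ℝ) + 1) * 8 * t * m * B / (8 * t * m * B) = n + 1 := by
    field_simp
  rw [h1]
  calc (2 : ℝ) ^ n ≤ (Real.exp 1) ^ n := by
        refine pow_le_pow_left₀ (by norm_num) ?_ n
        have := Real.add_one_le_exp 1
        linarith
    _ = Real.exp n := by rw [← Real.exp_nat_mul]; simp
    _ < Real.exp (n + 1) := Real.exp_lt_exp.2 (by linarith)

theorem eval_pRoom (Pe p : Polynomial ℕ) (D : ℕ) : (pRoom Pe p).eval D =
    Pe.eval (D * (2 * D + 1) + D * (2 * p.eval (2 * D) + 1)) + 2 := by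
  simp only [pRoom, Polynomial.eval_add, Polynomial.eval_comp, Polynomial.eval_mul,
    Polynomial.eval_X, Polynomial.eval_ofNat, Polynomial.eval_one]

theorem eval_pLen (Pe Pi p : Polynomial ℕ) (D : ℕ) : (pLen Pe Pi p).eval D =
    Pi.eval (8 * D + 2 * (pRoom Pe p).eval D +
      D * (2 * D + D * (D * (4 * D + 1) + 2 * D + 1) + 1)) + 1 := by
  simp only [pLen, Polynomial.eval_add, Polynomial.eval_comp, Polynomial.eval_mul,
    Polynomial.eval_X, Polynomial.eval_ofNat, Polynomial.eval_one]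

theorem eval_pD (a s : ℕ) : (pD a).eval s = (2 * a + 1) * s ^ (8 * a + 3) * (s ^ 4) ^ (2 * a) := by
  simp only [pD, Polynomial.eval_mul, Polynomial.eval_pow, Polynomial.eval_X,
    Polynomial.eval_C]

theorem eval_pAdv (Pe Pi Pt q p : Polynomial ℕ) (a s : ℕ) {D room T b : ℕ}
    (hD : (pD a).eval s = D) (hroom : room = (pRoom Pe p).eval D)
    (hT : T = (pTime Pe Pi q p).eval D) (hb : b = s ^ (8 * a + 3)) :
    (pAdv Pe Pi Pt q p a).eval s =
    Pt.eval (((s + 1) * 8 * s * s ^ 3 * b ^ (2 * a + 1)) *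
      ((8 * D + 2 * room + D * (2 * D + D * (D * (4 * D + 1) + 5 * D + 1) + 1)) +
      (b ^ (2 * a + 1) * 2 ^ (2 * a) * (2 * room + 1) + 2 * T) + 1)) := by
  simp only [pAdv, Polynomial.eval_add, Polynomial.eval_comp, Polynomial.eval_mul,
    Polynomial.eval_X, Polynomial.eval_ofNat, Polynomial.eval_one, Polynomial.eval_pow, hD,
    hroom, hT, hb]

end Pool.Agent.Lib.MP_2b5695_lc.Nw
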