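import Pool.Agent.Lib.MP_2b5695_lc.Nw.Run

/-!
The first solution that is found by the computation itself.
-/

namespace Pool.Agent.Lib.MP_2b5695_lc.Nw

open Alg

variable {κ : Ty} {R : List Bool × (List Bool × List Bool) → Bool} {g : κ.El → Bool}
  {S : List Bool × Ty.history.El → (Ty.move κ).El}

/-- the value `r` has been revealed before step `t` -/
private def RevN6 (R : List Bool × (List Bool × List Bool) → Bool) (g : κ.El → Bool)
    (S : List Bool × Ty.history.El → (Ty.move κ).El) (v : tyEnv.El) (t r : ℕ) : Prop :=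
  ∃ τ < t, ((mvT R g S v τ).1.1 = true ∧ (mvT R g S v τ).1.2 = true) ∧
    ((wdT R g S v τ).isEmpty = true ∨ feasW R (v.1, wdT R g S v τ) = true) ∧
    ∃ Z, (nxtT (feasW R) costW v (wdT R g S v τ)).head? = some Z ∧ val (costW Z) = r

private theorem costN_pos_n6 {z : ℕ} (hz : z ≠ 0) : 0 < costN z := by
  unfold costN costW
  have h1 : (Nat.bits z).isEmpty = false := by
    rw [Bool.eq_false_iff]
    intro h
    rw [List.isEmpty_iff] at h
    exact hz (bits_eq_nil.1 h)
  rw [h1, cond_false]
  exact val_append_true_pos _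

private theorem costW_empty_n6 {Y : List Bool} (h : Y.isEmpty = true) : val (costW Y) = 0 := by
  unfold costW
  rw [h, cond_true]
  rfl

private theorem wdT_bits_n6 (v : tyEnv.El) (t : ℕ) :
    wdT R g S v t = Nat.bits (val (mvT R g S v t).2.2) := by
  unfold wdT
  rw [norm_eq]

private theorem head_min_n6 {X : List Bool} {U : List (List Bool)} (hU : Full R X U)
    {Y Z : List Bool} (hZ : (nxtT (feasW R) costW (X, U) Y).head? = some Z) {z : ℕ}
    (hz : feasW R (X, Nat.bits z) = true) (hlt : val (costW Y) < costN z) :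
    val (costW Z) ≤ costN z := by
  have hmem : Nat.bits z ∈ nxtT (feasW R) costW (X, U) Y := by
    unfold nxtT
    rw [List.mem_filter]
    refine ⟨hU.all z hz, ?_⟩
    rw [Bool.and_eq_true, decide_eq_true_eq]
    exact ⟨hz, hlt⟩
  have hsort : (nxtT (feasW R) costW (X, U) Y).Pairwise
      fun Z Z' => val (costW Z) ≤ val (costW Z') := hU.sorted.filter _
  cases hl : nxtT (feasW R) costW (X, U) Y with
  | nil =>
    rw [hl] at hmem
    exact absurd hmem List.not_mem_nil
  | cons Z' l =>
    rw [hl] at hZ hmem hsort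
    rw [List.head?_cons, Option.some.injEq] at hZ
    subst hZ
    rcases List.mem_cons.1 hmem with h | h
    · rw [← h]
      exact le_rfl
    · exact (List.pairwise_cons.1 hsort).1 _ h

private theorem claim1_n6 {X : List Bool} {U : List (List Bool)} (hU : Full R X U) {n t1 : ℕ}
    (ht1 : t1 < n)
    (hopt : Optimal (feasN R) costN (val X) (val (mvT R g S (X, U) t1).2.2)) (W : Finset ℕ)
    (hW : ∀ r ∈ W, ∃ z : ℕ, z ≠ 0 ∧ feasW R (X, Nat.bits z) = true ∧ costN z = r)
    (hn : n ≤ W.card) :
    ∃ t ≤ t1, feasW R (X, wdT R g S (X, U) t) = true ∧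
      ¬ RevN6 R g S (X, U) t (val (costW (wdT R g S (X, U) t))) := by
  by_contra hcon
  push Not at hcon
  have hdc : ∀ t ≤ t1, ∀ z : ℕ, z ≠ 0 → feasW R (X, Nat.bits z) = true → ∀ r,
      RevN6 R g S (X, U) t r → costN z ≤ r → RevN6 R g S (X, U) t (costN z) := by
    intro t
    induction t with
    | zero =>
      rintro _ z _ _ r ⟨τ, hτ, _⟩ _
      exact absurd hτ (Nat.not_lt_zero _)
    | succ t ih =>
      rintro ht z hz0 hz r ⟨τ, hτ, hpres, hfe, Z, hZ, hr⟩ hle
      have hmono : RevN6 R g S (X, U) t (costN z) → RevN6 R g S (X, U) (t + 1) (costN z) := by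
        rintro ⟨τ', hτ', h'⟩
        exact ⟨τ', by omega, h'⟩
      rcases Nat.lt_or_ge τ t with hlt | hge
      · exact hmono (ih (by omega) z hz0 hz r ⟨τ, hlt, hpres, hfe, Z, hZ, hr⟩ hle)
      · have hτt : τ = t := by omega
        subst hτt
        rcases Nat.lt_or_ge (val (costW (wdT R g S (X, U) τ))) (costN z) with h1 | h1
        · have h2 := head_min_n6 hU hZ hz h1
          have h3 : val (costW Z) = costN z := by omega
          exact ⟨τ, hτ, hpres, hfe, Z, hZ, h3⟩
        · rcases hfe with h2 | h2
          · exfalso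
            rw [costW_empty_n6 h2] at h1
            have := costN_pos_n6 hz0
            omega
          · exact hmono (ih (by omega) z hz0 hz _ (hcon τ (by omega) h2) h1)
  have hfin : ∀ z : ℕ, z ≠ 0 → feasW R (X, Nat.bits z) = true →
      costN z ≤ val (costW (wdT R g S (X, U) t1)) := by
    intro z _ hz
    have h1 : feasN R (val X) z := by
      right
      rw [hU.bitsX]
      exact hz
    have h2 := hopt.2 z h1
    rw [wdT_bits_n6]
    exact h2
  have hsub : W ⊆ (Finset.range t1).image fun τ =>
      val (costW ((nxtT (feasW R) costW (X, U) (wdT R g S (X, U) τ)).headD [])) := by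
    intro r hr
    obtain ⟨z, hz0, hz, rfl⟩ := hW r hr
    have h1 := hfin z hz0 hz
    have h2 : RevN6 R g S (X, U) t1 (costN z) := by
      rcases hopt.1 with h3 | h3
      · exfalso
        rw [← wdT_bits_n6] at h3
        rw [costW_empty_n6 h3] at h1
        have := costN_pos_n6 hz0
        omega
      · rw [hU.bitsX, ← wdT_bits_n6] at h3
        exact hdc t1 le_rfl z hz0 hz _ (hcon t1 le_rfl h3) h1
    obtain ⟨τ, hτ, -, -, Z, hZ, hr⟩ := h2
    rw [Finset.mem_image]
    refine ⟨τ, Finset.mem_range.2 hτ, ?_⟩
    rw [List.headD_eq_head?_getD, hZ, Option.getD_some, hr]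
  have h4 := Finset.card_le_card hsub
  have h5 : ((Finset.range t1).image fun τ =>
      val (costW ((nxtT (feasW R) costW (X, U) (wdT R g S (X, U) τ)).headD []))).card ≤ t1 := by
    refine Finset.card_image_le.trans ?_
    rw [Finset.card_range]
  omega

/-- If the input has at least `n` values of solutions, then the computation finds a solution with
a value that has not been revealed before; it does so with every table `U.filter sel` that gives
the same answers except those with this value. -/
theorem Full.selfSolve {X : List Bool} {U : List (List Bool)} (hU : Full R X U) {O : Set κ.El}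
    (hg : ∀ q, g q = true ↔ q ∈ O) {n : ℕ}
    (h : Ensures O (Answers (feasN R) costN (val X)) (Optimal (feasN R) costN (val X))
      (fun h => S (X, h)) n []) (W : Finset ℕ)
    (hW : ∀ r ∈ W, ∃ z : ℕ, z ≠ 0 ∧ feasW R (X, Nat.bits z) = true ∧ costN z = r)
    (hn : n ≤ W.card) :
    ∃ Y : List Bool, feasW R (X, Y) = true ∧ ∀ sel : List Bool → Bool,
      (∀ Y' Z, (nxtT (feasW R) costW (X, U) Y').head? = some Z → val (costW Z) ≠ val (costW Y) →
        sel Z = true) → ∃ t < n, wdT R g S (X, U.filter sel) t = Y := by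
  obtain ⟨t1, ht1, hopt⟩ := hU.stops hg h
  obtain ⟨t, ht, hfe, hrev⟩ := claim1_n6 hU ht1 hopt W hW hn
  refine ⟨wdT R g S (X, U) t, hfe, fun sel hsel => ⟨t, by omega, ?_⟩⟩
  have hcongr : hsT R g S (X, U.filter sel) t = hsT R g S (X, U) t := by
    refine hsT_congr fun τ hτ h1 h2 => ?_
    unfold advT
    dsimp only
    have hnx : nxtT (feasW R) costW (X, U.filter sel) (wdT R g S (X, U) τ) =
        (nxtT (feasW R) costW (X, U) (wdT R g S (X, U) τ)).filter sel := by
      unfold nxtT
      dsimp only
      rw [List.filter_filter, List.filter_filter]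
      congr 1
      funext Z
      rw [Bool.and_comm]
    rw [hnx]
    cases hb : (wdT R g S (X, U) τ).isEmpty || feasW R (X, wdT R g S (X, U) τ) with
    | false => rfl
    | true =>
      rw [cond_true, cond_true]
      cases hl : nxtT (feasW R) costW (X, U) (wdT R g S (X, U) τ) with
      | nil => rfl
      | cons Z l =>
        have hhead : (nxtT (feasW R) costW (X, U) (wdT R g S (X, U) τ)).head? = some Z := by
          rw [hl, List.head?_cons]
        have hZ : sel Z = true := by
          refine hsel _ Z hhead fun heq => hrev ?_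
          refine ⟨τ, hτ, ⟨h1, h2⟩, ?_, Z, hhead, heq⟩
          rwa [Bool.or_eq_true] at hb
        rw [List.filter_cons_of_pos hZ]
        rfl
  unfold wdT mvT
  rw [hcongr]

end Pool.Agent.Lib.MP_2b5695_lc.Nw
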