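import Pool.Agent.Lib.MP_2b5695_lc.Nw.Fmt

/-!
A complete sorted table of words.
-/

namespace Pool.Agent.Lib.MP_2b5695_lc.Nw

open Alg

/-- all words of length at most `N`, sorted by cost -/
theorem exists_table (N : ℕ) : ∃ U : List (List Bool), U.Nodup ∧
    (∀ Z ∈ U, Nat.bits (val Z) = Z ∧ Z.length ≤ N) ∧
    (∀ z : ℕ, (Nat.bits z).length ≤ N → Nat.bits z ∈ U) ∧
    U.Pairwise fun Z Z' => val (costW Z) ≤ val (costW Z') := by
  classical
  let r : List Bool → List Bool → Prop := fun Z Z' => val (costW Z) ≤ val (costW Z')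
  have : Std.Total r := ⟨fun _ _ => le_total _ _⟩
  have : IsTrans (List Bool) r := ⟨fun _ _ _ h h' => le_trans h h'⟩
  have hmem : ∀ Z, Z ∈ ((List.range (2 ^ N)).map Nat.bits).insertionSort r ↔
      ∃ z < 2 ^ N, Nat.bits z = Z := by
    intro Z
    rw [List.mem_insertionSort, List.mem_map]
    simp only [List.mem_range]
  refine ⟨((List.range (2 ^ N)).map Nat.bits).insertionSort r, ?_, fun Z hZ => ?_,
    fun z hz => ?_, List.pairwise_insertionSort r _⟩
  · refine (List.perm_insertionSort r _).nodup_iff.2 (List.Nodup.map ?_ List.nodup_range)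
    intro x y hxy
    rw [← val_bits x, ← val_bits y]
    exact congrArg val hxy
  · obtain ⟨z, hz, rfl⟩ := (hmem Z).1 hZ
    refine ⟨by rw [val_bits], ?_⟩
    rw [Nat.size_eq_bits_len]
    exact Nat.size_le.2 hz
  · refine (hmem _).2 ⟨z, ?_, rfl⟩
    rw [Nat.size_eq_bits_len] at hz
    exact Nat.size_le.1 hz

end Pool.Agent.Lib.MP_2b5695_lc.Nw
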