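import Pool.Agent.Lib.MP_2b5695_lc.Nw.Mgf
import Pool.Agent.Lib.MP_2b5695_lc.Nw.Cover

/-!
Threshold direct products: the counting argument.
-/

namespace Pool.Agent.Lib.MP_2b5695_lc.Nw

open Finset

/-- Uniform distribution of the whole block. -/
private theorem tries_sum_blk {Ω P Z : Type} [Fintype Ω] [Fintype Z]
    {m : ℕ} (blk : Ω → P → Fin m → Z) (upd : Ω → P → (Fin m → Z) → Ω)
    (h1 : ∀ a p, upd a p (blk a p) = a) (h2 : ∀ a p v, blk (upd a p v) p = v)
    (h3 : ∀ a p v v', upd (upd a p v) p v' = upd a p v') (p : P) (f : (Fin m → Z) → ℝ) :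
    (Fintype.card Z : ℝ) ^ m * ∑ a : Ω, f (blk a p) = (Fintype.card Ω : ℝ) * ∑ v, f v := by
  classical
  have hinv : Function.Involutive
      (fun x : Ω × (Fin m → Z) => ((upd x.1 p x.2, blk x.1 p) : Ω × (Fin m → Z))) := by
    intro x
    ext1
    · simp only [h3, h1]
    · simp only [h2]
  have hs := Equiv.sum_comp hinv.toPerm (fun x : Ω × (Fin m → Z) => f x.2)
  simp only [Function.Involutive.coe_toPerm] at hs
  rw [Fintype.sum_prod_type, Fintype.sum_prod_type] at hs
  simp only [sum_const, card_univ, nsmul_eq_mul, Fintype.card_fun, Fintype.card_fin] at hs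
  rw [← hs, Finset.mul_sum]
  push_cast
  rfl

open Classical in
/-- Resampling one coordinate. -/
private theorem tries_resample {Ω P Z : Type} [Fintype Ω] [Fintype Z]
    {m : ℕ} (blk : Ω → P → Fin m → Z) (upd : Ω → P → (Fin m → Z) → Ω)
    (h1 : ∀ a p, upd a p (blk a p) = a) (h2 : ∀ a p v, blk (upd a p v) p = v)
    (h3 : ∀ a p v v', upd (upd a p v) p v' = upd a p v') (p : P) (k : Fin m) (z : Z)
    (Q : Ω → Prop) :
    ((univ : Finset Ω).filter fun a => Q (upd a p (Function.update (blk a p) k z))).card =
      Fintype.card Z * ((univ : Finset Ω).filter fun a => Q a ∧ blk a p k = z).card := by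
  have hinv : Function.Involutive
      (fun x : Ω × Z => ((upd x.1 p (Function.update (blk x.1 p) k x.2), blk x.1 p k) : Ω × Z)) := by
    intro x
    ext1
    · simp only [h3, h2, Function.update_idem, Function.update_eq_self, h1]
    · simp only [h2, Function.update_self]
  have hgen : ∀ F : Ω → ℕ,
      ∑ a : Ω, ∑ w : Z, F (upd a p (Function.update (blk a p) k w)) =
        Fintype.card Z * ∑ a : Ω, F a := by
    intro F
    have hs := Equiv.sum_comp hinv.toPerm (fun x : Ω × Z => F x.1)
    simp only [Function.Involutive.coe_toPerm] at hs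
    rw [Fintype.sum_prod_type, Fintype.sum_prod_type] at hs
    simp only [sum_const, card_univ, smul_eq_mul] at hs
    rw [← Finset.mul_sum] at hs
    exact hs
  have hs := hgen (fun a => if (Q a ∧ blk a p k = z) then 1 else 0)
  rw [← Finset.card_filter] at hs
  rw [← hs, Finset.card_filter]
  refine Finset.sum_congr rfl fun a _ => ?_
  rw [Finset.sum_eq_single z]
  · simp only [h2, Function.update_self, and_true]
  · intro w _ hw
    simp only [h2, Function.update_self, hw, and_false, if_false]
  · intro h
    exact absurd (mem_univ z) h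

open Classical in
/-- (1) reverse Markov inequality. -/
private theorem tries_markov {Ω P Z : Type} [Fintype Ω] [Fintype Z] [Nonempty Z]
    {m : ℕ} (blk : Ω → P → Fin m → Z) (upd : Ω → P → (Fin m → Z) → Ω)
    (h1 : ∀ a p, upd a p (blk a p) = a) (h2 : ∀ a p v, blk (upd a p v) p = v)
    (h3 : ∀ a p v v', upd (upd a p v) p v' = upd a p v') (p : P)
    (S : Finset Z) {t θ : ℕ} (ht : 1 ≤ t) (hm : 1 ≤ m)
    (hθ2 : (θ : ℝ) < ((S.card : ℝ) / Fintype.card Z - 1 / (2 * t)) * m + 1) :
    (Fintype.card Ω : ℝ) ≤ 2 * t * (((univ : Finset Ω).filter fun a =>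
        θ ≤ ((univ : Finset (Fin m)).filter fun k => blk a p k ∈ S).card).card : ℝ) := by
  have hZ : (0 : ℝ) < Fintype.card Z := by exact_mod_cast Fintype.card_pos
  have hone : ∀ (k : Fin m) (z : Z), (((univ : Finset Ω).filter fun a => blk a p k = z).card : ℝ)
      = (Fintype.card Ω : ℝ) / Fintype.card Z := by
    intro k z
    have h := tries_resample blk upd h1 h2 h3 p k z (fun _ => True)
    simp only [true_and, filter_true, card_univ] at h
    rw [eq_div_iff hZ.ne', h]
    push_cast
    ring
  have hS : ∀ k : Fin m, (((univ : Finset Ω).filter fun a => blk a p k ∈ S).card : ℝ)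
      = (S.card : ℝ) * ((Fintype.card Ω : ℝ) / Fintype.card Z) := by
    intro k
    have h := Finset.card_eq_sum_card_fiberwise (f := fun a => blk a p k)
      (s := (univ : Finset Ω).filter fun a => blk a p k ∈ S) (t := S)
      (fun a ha => by simpa using ha)
    rw [h]
    push_cast
    rw [Finset.sum_congr rfl (g := fun _ => (Fintype.card Ω : ℝ) / Fintype.card Z)]
    · rw [sum_const, nsmul_eq_mul]
    · intro z hz
      rw [← hone k z]
      congr 2
      ext a
      simp only [mem_filter, mem_univ, true_and]
      constructor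
      · exact fun h => h.2
      · intro h
        exact ⟨by rw [h]; exact hz, h⟩
  set c : Ω → ℕ := fun a => ((univ : Finset (Fin m)).filter fun k => blk a p k ∈ S).card with hc
  have hsum : ∑ a : Ω, (c a : ℝ) = m * ((S.card : ℝ) * ((Fintype.card Ω : ℝ) / Fintype.card Z)) := by
    have : ∑ a : Ω, (c a : ℝ) = ∑ k : Fin m,
        (((univ : Finset Ω).filter fun a => blk a p k ∈ S).card : ℝ) := by
      simp only [hc, Finset.card_filter]
      push_cast
      rw [Finset.sum_comm]
    rw [this, Finset.sum_congr rfl (fun k _ => hS k), sum_const, card_univ, Fintype.card_fin,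
      nsmul_eq_mul]
  have hcm : ∀ a, (c a : ℝ) ≤ m := by
    intro a
    have : c a ≤ m := by
      have := Finset.card_filter_le (univ : Finset (Fin m)) (fun k => blk a p k ∈ S)
      simpa [hc] using this
    exact_mod_cast this
  set x : ℝ := ((S.card : ℝ) / Fintype.card Z - 1 / (2 * t)) * m with hx
  set G : Finset Ω := (univ : Finset Ω).filter fun a => θ ≤ c a with hG
  have htr : (1 : ℝ) ≤ t := by exact_mod_cast ht
  have hmr : (1 : ℝ) ≤ m := by exact_mod_cast hm
  have hnot : ∀ a, a ∉ G → (c a : ℝ) < x := by
    intro a ha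
    have h : c a < θ := by
      by_contra hh
      exact ha (by simp [hG]; omega)
    have h' : ((c a + 1 : ℕ) : ℝ) ≤ θ := by exact_mod_cast h
    push_cast at h'
    linarith
  change (Fintype.card Ω : ℝ) ≤ 2 * t * (G.card : ℝ)
  rcases lt_or_ge x 0 with hx0 | hx0
  · have hGu : G = univ := by
      ext a
      simp only [mem_univ, iff_true]
      by_contra ha
      have := hnot a ha
      have h0 : (0 : ℝ) ≤ c a := Nat.cast_nonneg _
      linarith
    rw [hGu, card_univ]
    have h0 : (0 : ℝ) ≤ Fintype.card Ω := Nat.cast_nonneg _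
    nlinarith
  · have hle : ∑ a : Ω, (c a : ℝ) ≤ (G.card : ℝ) * m + Fintype.card Ω * x := by
      have hb : ∀ a : Ω, (c a : ℝ) ≤ (if a ∈ G then (m : ℝ) else 0) + x := by
        intro a
        by_cases ha : a ∈ G
        · rw [if_pos ha]
          have := hcm a
          linarith
        · rw [if_neg ha]
          have := hnot a ha
          linarith
      refine (Finset.sum_le_sum fun a _ => hb a).trans (le_of_eq ?_)
      rw [Finset.sum_add_distrib, sum_const, card_univ, nsmul_eq_mul, ← Finset.sum_filter]
      congr 1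
      rw [Finset.filter_mem_eq_inter, Finset.univ_inter, sum_const, nsmul_eq_mul]
    rw [hsum] at hle
    have hN : (0 : ℝ) ≤ Fintype.card Ω := Nat.cast_nonneg _
    have hkey : (m : ℝ) * (Fintype.card Ω / (2 * t)) ≤ m * G.card := by
      have e1 : (Fintype.card Ω : ℝ) * x = m * ((S.card : ℝ) *
          ((Fintype.card Ω : ℝ) / Fintype.card Z)) - m * (Fintype.card Ω / (2 * t)) := by
        rw [hx]
        field_simp
      rw [e1] at hle
      linarith
    have hkey2 := le_of_mul_le_mul_left hkey (by linarith)
    rw [div_le_iff₀ (by linarith)] at hkey2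
    linarith

open Classical in
theorem exists_tries {Ω P Z : Type} [Fintype Ω] [Fintype P] [Fintype Z] [Nonempty Ω] [Nonempty P]
    [Nonempty Z] {m : ℕ} (blk : Ω → P → Fin m → Z) (upd : Ω → P → (Fin m → Z) → Ω)
    (h1 : ∀ a p, upd a p (blk a p) = a) (h2 : ∀ a p v, blk (upd a p v) p = v)
    (h3 : ∀ a p v v', upd (upd a p v) p v' = upd a p v')
    (S : Finset Z) {t θ q : ℕ} (ht : 1 ≤ t) (hm : 1 ≤ m)
    (hθ1 : ((S.card : ℝ) / Fintype.card Z - 1 / (2 * t)) * m ≤ θ)
    (hθ2 : (θ : ℝ) < ((S.card : ℝ) / Fintype.card Z - 1 / (2 * t)) * m + 1)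
    (hq : 4 * t * q ≤ Fintype.card P)
    (hexp : 8 * (t : ℝ) * (Fintype.card P : ℝ) < Real.exp ((m : ℝ) / (16 * (t : ℝ) ^ 2)))
    (Sim : Ω → P → Fin m → Prop)
    (hSim : ∀ a, q < ((univ : Finset P).filter fun p =>
        θ ≤ ((univ : Finset (Fin m)).filter fun k => blk a p k ∈ S).card).card →
      ∃ p, θ ≤ ((univ : Finset (Fin m)).filter fun k => Sim a p k ∧ blk a p k ∈ S).card)
    {K : ℕ} (hK : (Fintype.card Z : ℝ) <
      Real.exp ((K : ℝ) / (8 * (t : ℝ) * (m : ℝ) * (Fintype.card P : ℝ)))) :
    ∃ (p : P) (l : List (Ω × Fin m)), l.length = K ∧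
      t * (S.filter fun z => ∀ e ∈ l,
        ¬ Sim (upd e.1 p (Function.update (blk e.1 p) e.2 z)) p e.2).card ≤ Fintype.card Z := by
  have hZ : (0 : ℝ) < Fintype.card Z := by exact_mod_cast Fintype.card_pos
  have hP : (0 : ℝ) < Fintype.card P := by exact_mod_cast Fintype.card_pos
  have hN : (0 : ℝ) < Fintype.card Ω := by exact_mod_cast Fintype.card_pos
  have htr : (1 : ℝ) ≤ t := by exact_mod_cast ht
  have hmr : (1 : ℝ) ≤ m := by exact_mod_cast hm
  set N : ℝ := (Fintype.card Ω : ℝ) with hNdef
  -- (2)
  set A : Finset Ω := (univ : Finset Ω).filter fun a => q < ((univ : Finset P).filter fun p =>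
        θ ≤ ((univ : Finset (Fin m)).filter fun k => blk a p k ∈ S).card).card with hA
  have h2A : N ≤ 4 * t * (A.card : ℝ) := by
    have hlow : ∑ p : P, N ≤ ∑ p : P, 2 * t * (((univ : Finset Ω).filter fun a =>
        θ ≤ ((univ : Finset (Fin m)).filter fun k => blk a p k ∈ S).card).card : ℝ) :=
      Finset.sum_le_sum fun p _ => tries_markov blk upd h1 h2 h3 p S ht hm hθ2
    rw [sum_const, card_univ, nsmul_eq_mul, ← Finset.mul_sum] at hlow
    have hswap : ∑ p : P, (((univ : Finset Ω).filter fun a =>
        θ ≤ ((univ : Finset (Fin m)).filter fun k => blk a p k ∈ S).card).card : ℝ)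
        = ∑ a : Ω, (((univ : Finset P).filter fun p =>
        θ ≤ ((univ : Finset (Fin m)).filter fun k => blk a p k ∈ S).card).card : ℝ) := by
      have e : ∀ p : P, (((univ : Finset Ω).filter fun a =>
          θ ≤ ((univ : Finset (Fin m)).filter fun k => blk a p k ∈ S).card).card : ℝ) =
          ∑ a : Ω, if θ ≤ ((univ : Finset (Fin m)).filter fun k => blk a p k ∈ S).card
            then (1 : ℝ) else 0 := by
        intro p
        rw [Finset.card_filter]
        push_cast
        rfl
      have e' : ∀ a : Ω, (((univ : Finset P).filter fun p =>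
          θ ≤ ((univ : Finset (Fin m)).filter fun k => blk a p k ∈ S).card).card : ℝ) =
          ∑ p : P, if θ ≤ ((univ : Finset (Fin m)).filter fun k => blk a p k ∈ S).card
            then (1 : ℝ) else 0 := by
        intro a
        rw [Finset.card_filter]
        push_cast
        rfl
      rw [Finset.sum_congr rfl fun p _ => e p, Finset.sum_congr rfl fun a _ => e' a,
        Finset.sum_comm]
    have hup : ∑ a : Ω, (((univ : Finset P).filter fun p =>
        θ ≤ ((univ : Finset (Fin m)).filter fun k => blk a p k ∈ S).card).card : ℝ)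
        ≤ (A.card : ℝ) * Fintype.card P + N * q := by
      have hb : ∀ a : Ω, (((univ : Finset P).filter fun p =>
          θ ≤ ((univ : Finset (Fin m)).filter fun k => blk a p k ∈ S).card).card : ℝ)
          ≤ (if a ∈ A then (Fintype.card P : ℝ) else 0) + q := by
        intro a
        by_cases ha : a ∈ A
        · rw [if_pos ha]
          have h0 : ((univ : Finset P).filter fun p =>
            θ ≤ ((univ : Finset (Fin m)).filter fun k => blk a p k ∈ S).card).card
              ≤ Fintype.card P := by
            rw [← card_univ]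
            exact Finset.card_filter_le _ _
          have h0' : (((univ : Finset P).filter fun p =>
            θ ≤ ((univ : Finset (Fin m)).filter fun k => blk a p k ∈ S).card).card : ℝ)
              ≤ Fintype.card P := by exact_mod_cast h0
          have hq0 : (0 : ℝ) ≤ q := Nat.cast_nonneg _
          linarith
        · rw [if_neg ha]
          have h0 : ((univ : Finset P).filter fun p =>
            θ ≤ ((univ : Finset (Fin m)).filter fun k => blk a p k ∈ S).card).card ≤ q := by
            by_contra hh
            exact ha (by rw [hA]; simp only [mem_filter, mem_univ, true_and]; omega)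
          have h0' : (((univ : Finset P).filter fun p =>
            θ ≤ ((univ : Finset (Fin m)).filter fun k => blk a p k ∈ S).card).card : ℝ)
              ≤ q := by exact_mod_cast h0
          linarith
      refine (Finset.sum_le_sum fun a _ => hb a).trans (le_of_eq ?_)
      rw [Finset.sum_add_distrib, sum_const, card_univ, nsmul_eq_mul, ← Finset.sum_filter]
      congr 1
      rw [Finset.filter_mem_eq_inter, Finset.univ_inter, sum_const, nsmul_eq_mul]
    rw [hswap] at hlow
    have hq' : 4 * (t : ℝ) * q ≤ Fintype.card P := by exact_mod_cast hq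
    have h3' : (Fintype.card P : ℝ) * N ≤ 2 * t * ((A.card : ℝ) * Fintype.card P + N * q) :=
      hlow.trans (mul_le_mul_of_nonneg_left hup (by linarith))
    have h4 : 2 * (t : ℝ) * (N * q) ≤ N * (Fintype.card P / 2) := by
      have := mul_le_mul_of_nonneg_left hq' hN.le
      nlinarith
    have h5 : (Fintype.card P : ℝ) * N ≤ Fintype.card P * (4 * t * (A.card : ℝ)) := by
      nlinarith
    exact le_of_mul_le_mul_left h5 hP
  -- (3)
  obtain ⟨p, hp⟩ : ∃ p : P, N ≤ 4 * t * Fintype.card P *
      (((univ : Finset Ω).filter fun a => θ ≤ ((univ : Finset (Fin m)).filter fun k =>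
        Sim a p k ∧ blk a p k ∈ S).card).card : ℝ) := by
    by_contra hcon
    push Not at hcon
    have hAle : A.card ≤ ∑ p : P, ((univ : Finset Ω).filter fun a =>
        θ ≤ ((univ : Finset (Fin m)).filter fun k => Sim a p k ∧ blk a p k ∈ S).card).card := by
      have hsub : A ⊆ (univ : Finset P).biUnion fun p => (univ : Finset Ω).filter fun a =>
        θ ≤ ((univ : Finset (Fin m)).filter fun k => Sim a p k ∧ blk a p k ∈ S).card := by
        intro a ha
        rw [hA, mem_filter] at ha
        obtain ⟨p, hp⟩ := hSim a ha.2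
        rw [mem_biUnion]
        exact ⟨p, mem_univ _, by rw [mem_filter]; exact ⟨mem_univ _, hp⟩⟩
      exact (Finset.card_le_card hsub).trans Finset.card_biUnion_le
    have hAle' : (A.card : ℝ) ≤ ∑ p : P, (((univ : Finset Ω).filter fun a =>
        θ ≤ ((univ : Finset (Fin m)).filter fun k =>
          Sim a p k ∧ blk a p k ∈ S).card).card : ℝ) := by exact_mod_cast hAle
    have hlt : ∑ p : P, 4 * t * Fintype.card P * (((univ : Finset Ω).filter fun a =>
        θ ≤ ((univ : Finset (Fin m)).filter fun k =>
          Sim a p k ∧ blk a p k ∈ S).card).card : ℝ) < ∑ p : P, N :=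
      Finset.sum_lt_sum_of_nonempty univ_nonempty fun p _ => hcon p
    rw [← Finset.mul_sum, sum_const, card_univ, nsmul_eq_mul] at hlt
    have h6 : 4 * (t : ℝ) * Fintype.card P * A.card ≤ 4 * t * Fintype.card P *
        ∑ p : P, (((univ : Finset Ω).filter fun a =>
        θ ≤ ((univ : Finset (Fin m)).filter fun k =>
          Sim a p k ∧ blk a p k ∈ S).card).card : ℝ) :=
      mul_le_mul_of_nonneg_left hAle' (by positivity)
    have h7 : (Fintype.card P : ℝ) * N ≤ Fintype.card P * (4 * t * (A.card : ℝ)) :=
      mul_le_mul_of_nonneg_left h2A hP.le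
    linarith
  -- (4)
  set s : Z → ℕ := fun z => ((univ : Finset (Ω × Fin m)).filter fun e =>
    Sim (upd e.1 p (Function.update (blk e.1 p) e.2 z)) p e.2).card with hs
  set η : ℝ := 1 / (8 * t * m * Fintype.card P) with hη
  set Bad : Finset Z := S.filter fun z => (s z : ℝ) < η * (N * m) with hBad
  have hBadS : Bad ⊆ S := Finset.filter_subset _ _
  have hs' : ∀ z, (s z : ℝ) = ∑ k : Fin m, (Fintype.card Z : ℝ) *
      (((univ : Finset Ω).filter fun a => Sim a p k ∧ blk a p k = z).card : ℝ) := by
    intro z
    have e : s z = ∑ k : Fin m, ((univ : Finset Ω).filter fun a =>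
        Sim (upd a p (Function.update (blk a p) k z)) p k).card := by
      simp only [hs, Finset.card_filter]
      rw [Fintype.sum_prod_type, Finset.sum_comm]
    rw [e]
    push_cast
    refine Finset.sum_congr rfl fun k _ => ?_
    rw [tries_resample blk upd h1 h2 h3 p k z (fun a => Sim a p k)]
    push_cast
    rfl
  have hclaim : t * Bad.card ≤ Fintype.card Z := by
    by_contra hcon
    push Not at hcon
    have hcon' : (Fintype.card Z : ℝ) < t * Bad.card := by exact_mod_cast hcon
    set G : Finset Z := S \ Bad with hG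
    have hGc : (G.card : ℝ) = S.card - Bad.card := by
      rw [hG, Finset.card_sdiff_of_subset hBadS, Nat.cast_sub (Finset.card_le_card hBadS)]
    set B1 : Finset Ω := (univ : Finset Ω).filter fun a =>
      θ ≤ ((univ : Finset (Fin m)).filter fun k => blk a p k ∈ G).card with hB1
    set B2 : Finset Ω := (univ : Finset Ω).filter fun a =>
      ∃ k, Sim a p k ∧ blk a p k ∈ Bad with hB2
    have hsub : ((univ : Finset Ω).filter fun a => θ ≤ ((univ : Finset (Fin m)).filter fun k =>
        Sim a p k ∧ blk a p k ∈ S).card) ⊆ B1 ∪ B2 := by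
      intro a ha
      rw [mem_filter] at ha
      rw [mem_union]
      by_cases h : ∃ k, Sim a p k ∧ blk a p k ∈ Bad
      · right
        rw [hB2, mem_filter]
        exact ⟨mem_univ _, h⟩
      · left
        rw [hB1, mem_filter]
        refine ⟨mem_univ _, ha.2.trans (Finset.card_le_card ?_)⟩
        intro k hk
        rw [mem_filter] at hk ⊢
        refine ⟨mem_univ _, ?_⟩
        rw [hG, mem_sdiff]
        exact ⟨hk.2.2, fun hb => h ⟨k, hk.2.1, hb⟩⟩
    have hB1c : (B1.card : ℝ) < N / (8 * t * Fintype.card P) := by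
      have hβ : (S.card : ℝ) / Fintype.card Z ≤ 1 := by
        rw [div_le_one hZ]
        have := Finset.card_le_univ S
        exact_mod_cast this
      have hGle : (G.card : ℝ) ≤ ((S.card : ℝ) / Fintype.card Z - 1 / t) * Fintype.card Z := by
        rw [hGc, sub_mul, div_mul_cancel₀ _ hZ.ne']
        have : (Fintype.card Z : ℝ) / t ≤ Bad.card := by
          rw [div_le_iff₀ (by linarith)]
          linarith
        have e : 1 / (t : ℝ) * Fintype.card Z = Fintype.card Z / t := by ring
        rw [e]
        linarith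
      have hb := mgf_bound G ht hβ hGle hθ1
      have hsb := tries_sum_blk blk upd h1 h2 h3 p (fun v =>
        if θ ≤ ((univ : Finset (Fin m)).filter fun k => v k ∈ G).card then (1 : ℝ) else 0)
      have e1 : (B1.card : ℝ) = ∑ a : Ω,
          if θ ≤ ((univ : Finset (Fin m)).filter fun k => blk a p k ∈ G).card
            then (1 : ℝ) else 0 := by
        rw [hB1, Finset.card_filter]
        push_cast
        rfl
      have e2 : (((univ : Finset (Fin m → Z)).filter fun v =>
          θ ≤ ((univ : Finset (Fin m)).filter fun k => v k ∈ G).card).card : ℝ) =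
          ∑ v : Fin m → Z, if θ ≤ ((univ : Finset (Fin m)).filter fun k => v k ∈ G).card
            then (1 : ℝ) else 0 := by
        rw [Finset.card_filter]
        push_cast
        rfl
      rw [← e1, ← e2] at hsb
      have hZm : (0 : ℝ) < (Fintype.card Z : ℝ) ^ m := by positivity
      have h8 : (Fintype.card Z : ℝ) ^ m * B1.card ≤
          (Fintype.card Z : ℝ) ^ m * (N * Real.exp (-((m : ℝ) / (16 * (t : ℝ) ^ 2)))) := by
        rw [hsb]
        calc N * _ ≤ N * ((Fintype.card Z : ℝ) ^ m *
            Real.exp (-((m : ℝ) / (16 * (t : ℝ) ^ 2)))) := mul_le_mul_of_nonneg_left hb hN.le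
          _ = _ := by ring
      have h9 := le_of_mul_le_mul_left h8 hZm
      refine lt_of_le_of_lt h9 ?_
      rw [Real.exp_neg, div_eq_mul_inv]
      refine mul_lt_mul_of_pos_left ?_ hN
      exact (inv_lt_inv₀ (Real.exp_pos _) (by positivity)).mpr hexp
    have hB2c : (B2.card : ℝ) ≤ N / (8 * t * Fintype.card P) := by
      have h10 : (B2.card : ℝ) ≤ ∑ z ∈ Bad, ∑ k : Fin m,
          (((univ : Finset Ω).filter fun a => Sim a p k ∧ blk a p k = z).card : ℝ) := by
        have hsub2 : B2 ⊆ Bad.biUnion fun z => (univ : Finset (Fin m)).biUnion fun k =>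
            (univ : Finset Ω).filter fun a => Sim a p k ∧ blk a p k = z := by
          intro a ha
          rw [hB2, mem_filter] at ha
          obtain ⟨_, k, hk1, hk2⟩ := ha
          rw [mem_biUnion]
          refine ⟨blk a p k, hk2, ?_⟩
          rw [mem_biUnion]
          refine ⟨k, mem_univ _, ?_⟩
          rw [mem_filter]
          exact ⟨mem_univ _, hk1, rfl⟩
        have h11 : B2.card ≤ ∑ z ∈ Bad, ∑ k : Fin m,
            ((univ : Finset Ω).filter fun a => Sim a p k ∧ blk a p k = z).card := by
          refine (Finset.card_le_card hsub2).trans (Finset.card_biUnion_le.trans ?_)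
          exact Finset.sum_le_sum fun z _ => Finset.card_biUnion_le
        exact_mod_cast h11
      have h12 : (Fintype.card Z : ℝ) * B2.card ≤ ∑ z ∈ Bad, (s z : ℝ) := by
        have h13 := mul_le_mul_of_nonneg_left h10 hZ.le
        refine h13.trans (le_of_eq ?_)
        rw [Finset.mul_sum]
        refine Finset.sum_congr rfl fun z _ => ?_
        rw [hs' z, Finset.mul_sum]
      have h14 : ∑ z ∈ Bad, (s z : ℝ) ≤ ∑ z ∈ Bad, η * (N * m) := by
        refine Finset.sum_le_sum fun z hz => ?_
        rw [hBad, mem_filter] at hz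
        exact hz.2.le
      rw [sum_const, nsmul_eq_mul] at h14
      have h15 : (Bad.card : ℝ) ≤ Fintype.card Z := by
        exact_mod_cast Finset.card_le_univ Bad
      have hηpos : 0 ≤ η * (N * m) := by rw [hη]; positivity
      have h16 : (Fintype.card Z : ℝ) * B2.card ≤ Fintype.card Z * (η * (N * m)) :=
        (h12.trans h14).trans (mul_le_mul_of_nonneg_right h15 hηpos)
      have h17 := le_of_mul_le_mul_left h16 hZ
      refine h17.trans (le_of_eq ?_)
      rw [hη]
      field_simp
    have hfin : (((univ : Finset Ω).filter fun a => θ ≤ ((univ : Finset (Fin m)).filter fun k =>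
        Sim a p k ∧ blk a p k ∈ S).card).card : ℝ) < N / (4 * t * Fintype.card P) := by
      have h18 : (((univ : Finset Ω).filter fun a =>
          θ ≤ ((univ : Finset (Fin m)).filter fun k =>
          Sim a p k ∧ blk a p k ∈ S).card).card : ℝ) ≤ B1.card + B2.card := by
        have := (Finset.card_le_card hsub).trans (Finset.card_union_le B1 B2)
        exact_mod_cast this
      have h19 : N / (4 * t * Fintype.card P) = N / (8 * t * Fintype.card P) +
          N / (8 * t * Fintype.card P) := by
        field_simp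
        ring
      rw [h19]
      linarith
    rw [lt_div_iff₀ (by positivity)] at hfin
    linarith
  -- (5)
  have : Nonempty (Fin m) := ⟨⟨0, hm⟩⟩
  obtain ⟨l, hl1, hl2⟩ := exists_cover (T := Ω × Fin m) (S \ Bad)
    (fun e z => Sim (upd e.1 p (Function.update (blk e.1 p) e.2 z)) p e.2)
    (η := η) (K := K) (by
      intro z hz
      rw [mem_sdiff, hBad, mem_filter] at hz
      have h20 : ¬ ((s z : ℝ) < η * (N * m)) := fun h => hz.2 ⟨hz.1, h⟩
      rw [not_lt] at h20
      rw [Fintype.card_prod, Fintype.card_fin]
      push_cast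
      exact h20) (by
      have h21 : ((S \ Bad).card : ℝ) ≤ Fintype.card Z := by
        exact_mod_cast Finset.card_le_univ _
      refine lt_of_le_of_lt h21 ?_
      have e : η * K = (K : ℝ) / (8 * (t : ℝ) * (m : ℝ) * (Fintype.card P : ℝ)) := by
        rw [hη]
        ring
      rw [e]
      exact hK)
  refine ⟨p, l, hl1, le_trans (Nat.mul_le_mul_left t (Finset.card_le_card ?_)) hclaim⟩
  intro z hz
  rw [mem_filter] at hz
  by_contra hb
  obtain ⟨x, hx1, hx2⟩ := hl2 z (by rw [mem_sdiff]; exact ⟨hz.1, hb⟩)
  exact hz.2 x hx1 hx2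

end Pool.Agent.Lib.MP_2b5695_lc.Nw
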