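import Pool.Agent.Lib.MP_2b5695_lc.Nw.Core
import Pool.Agent.Lib.MP_2b5695_lc.Nw.SelfSolve
import Pool.Agent.Lib.MP_2b5695_lc.Nw.Table
import Pool.Agent.Lib.MP_2b5695_lc.Nw.Tries

/-!
The algorithm finds solutions.
-/

namespace Pool.Agent.Lib.MP_2b5695_lc.Nw

open Alg Finset

variable {m n D L b : ℕ} {κ : Ty} {R : List Bool × (List Bool × List Bool) → Bool}
  {g : κ.El → Bool} {S : List Bool × Ty.history.El → (Ty.move κ).El}
  {x : List Bool} {θ room : ℕ} {U : List (List Bool)}

open Classical in
/-- the words that have solutions -/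
noncomputable def solS (R : List Bool × (List Bool × List Bool) → Bool) (x : List Bool) (n : ℕ) :
    Finset (Fin n → Bool) := univ.filter fun z => ∃ y, R (x, (zw z, y)) = true

/-- if the answer is at a step of the computation, then the algorithm succeeds -/
theorem algT_success {T : ℕ} {a : Fin m → Fin n → Fin D → Bool} {p : Fin (L + 1) → Fin b}
    {k : Fin m} {z : Fin n → Bool}
    (h : SimT R g S x θ room U T (updT a p (Function.update (blkT a p) k z)) p k)
    (hb : blkT (updT a p (Function.update (blkT a p) k z)) p k = z)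
    {l : List tyTry.El}
    (hl : ((tmT θ room a p k, (tabT R x θ room U a p, un T)) : tyTry.El) ∈ l) :
    R (x, (zw z, algT R g S (x, (zw z, enc (.list tyTry) l)))) = true := by
  obtain ⟨y, hy, hR⟩ := h
  rw [hb] at hR
  rw [algT, dec_enc]
  simp only
  cases hf : (l.flatMap fun e => candT R g S x (zw z) e).filter
      (fun y => R (x, (zw z, y))) with
  | nil =>
    rw [List.headD_nil]
    rcases List.mem_cons.1 hy with rfl | hy
    · exact hR
    · exfalso
      rw [List.filter_eq_nil_iff] at hf
      refine hf y (List.mem_flatMap.2 ⟨_, hl, ?_⟩) hR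
      rw [candT]
      simp only
      rw [inW_tmT]
      rw [tabT_upd] at hy
      exact hy
  | cons w t =>
    rw [List.headD_cons]
    have : w ∈ (l.flatMap fun e => candT R g S x (zw z) e).filter
      (fun y => R (x, (zw z, y))) := by rw [hf]; exact List.mem_cons_self
    exact (List.mem_filter.1 this).2

open Classical in
/-- for every table with many solvable positions there is a position where the simulated
computation finds solutions -/
theorem exists_sim {O : Set κ.El} (hg : ∀ q, g q = true ↔ q ∈ O)
    (hU1 : ∀ Z ∈ U, Nat.bits (val Z) = Z ∧ Z.length ≤ room)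
    (hU2 : ∀ z : ℕ, (Nat.bits z).length ≤ room → Nat.bits z ∈ U)
    (hU3 : U.Pairwise fun Z Z' => val (costW Z) ≤ val (costW Z'))
    {T : ℕ} (a : Fin m → Fin n → Fin D → Bool)
    (hE : Ensures O (Answers (feasN R) costN (val (XT x L b θ room a)))
      (Optimal (feasN R) costN (val (XT x L b θ room a)))
      (fun h => S (XT x L b θ room a, h)) T [])
    (hroom : ∀ (p : Fin (L + 1) → Fin b) (ys : Fin m → List Bool),
      (∀ k, ys k = [] ∨ R (x, (zw (blkT a p k), ys k)) = true) →
      (enc tySlt (digT p, List.ofFn ys) ++ [true]).length + 1 ≤ room)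
    (hT : T < ((univ : Finset (Fin (L + 1) → Fin b)).filter fun p =>
        θ ≤ ((univ : Finset (Fin m)).filter fun k => blkT a p k ∈ solS R x n).card).card) :
    ∃ p : Fin (L + 1) → Fin b, θ ≤ ((univ : Finset (Fin m)).filter fun k =>
      SimT R g S x θ room U T a p k ∧ blkT a p k ∈ solS R x n).card := by
  have hF : Full R (XT x L b θ room a) U :=
    ⟨bits_XT _ _ _ _ _ _, fun Z hZ => (hU1 Z hZ).1, fun z hz => by
      obtain ⟨h1, -⟩ := feasW_XT.1 hz
      exact hU2 z (by omega), hU3⟩
  obtain ⟨Y, hY, hsel⟩ := hF.selfSolve hg hE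
    ((((univ : Finset (Fin (L + 1) → Fin b)).filter fun p =>
        θ ≤ ((univ : Finset (Fin m)).filter fun k => blkT a p k ∈ solS R x n).card)).image csT)
    (by
      intro r hr
      obtain ⟨p, hp, rfl⟩ := Finset.mem_image.1 hr
      rw [Finset.mem_filter] at hp
      set ys : Fin m → List Bool := fun k =>
        if h : ∃ y, R (x, (zw (blkT a p k), y)) = true then h.choose else [] with hys
      have hys1 : ∀ k, ys k = [] ∨ R (x, (zw (blkT a p k), ys k)) = true := by
        intro k
        by_cases h : ∃ y, R (x, (zw (blkT a p k), y)) = true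
        · right
          rw [hys]
          simp only [dif_pos h]
          exact h.choose_spec
        · left
          rw [hys]
          simp only [dif_neg h]
      have hd : decS (enc tySlt (digT p, List.ofFn ys) ++ [true]) = (digT p, List.ofFn ys) := by
        rw [decS, List.dropLast_concat, dec_enc]
      refine ⟨val (enc tySlt (digT p, List.ofFn ys) ++ [true]), (val_append_true_pos _).ne',
        ?_, ?_⟩
      · rw [bits_append_true, feasW_XT]
        refine ⟨hroom p ys hys1, p, by rw [hd], ?_⟩
        rw [hd]
        refine hp.2.trans (Finset.card_le_card fun k hk => ?_)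
        rw [Finset.mem_filter] at hk ⊢
        refine ⟨hk.1, ?_⟩
        simp only
        rw [nth_ofFn]
        rw [solS, Finset.mem_filter] at hk
        rw [hys]
        simp only [dif_pos hk.2.2]
        exact hk.2.2.choose_spec
      · rw [costN, bits_append_true]
        exact costW_eq (by rw [hd]))
    (by
      rw [Finset.card_image_of_injective _ fun p p' h => csT_eq_iff.1 h]
      exact hT.le)
  obtain ⟨-, p, hp, hcnt⟩ := feasW_XT.1 hY
  obtain ⟨t, ht, hwd⟩ := hsel (selT R x θ room U a p) (by
    intro Y' Z hZ hne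
    rw [costW_eq hp] at hne
    rw [selT, decide_eq_true_eq]
    refine ⟨blkT a p, Y', ?_, hne⟩
    rw [updT_blkT]
    exact hZ)
  refine ⟨p, hcnt.trans (Finset.card_le_card fun k hk => ?_)⟩
  rw [Finset.mem_filter] at hk ⊢
  refine ⟨hk.1, ⟨nth (decS Y).2 (un k), ?_, hk.2⟩, ?_⟩
  · rw [nth]
    cases hdr : (decS Y).2.drop (un k).length with
    | nil => rw [List.headD_nil]; exact List.mem_cons_self
    | cons y t' =>
      rw [List.headD_cons]
      refine List.mem_cons_of_mem _ (List.mem_flatMap.2 ⟨Y, ?_, ?_⟩)
      · rw [← hwd]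
        exact mem_wordsT (v := (XT x L b θ room a, tabT R x θ room U a p)) ht
      · have : y ∈ (decS Y).2.drop (un k).length := by rw [hdr]; exact List.mem_cons_self
        exact List.mem_of_mem_drop this
  · rw [solS, Finset.mem_filter]
    exact ⟨Finset.mem_univ _, _, hk.2⟩

end Pool.Agent.Lib.MP_2b5695_lc.Nw
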