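import Pool.Agent.Lib.MP_2b5695_lc.Alg.Hash

/-!
The optimization problem: tables of instances of a search problem.
-/

namespace Pool.Agent.Lib.MP_2b5695_lc.Nw

open Alg

variable {ι : Ty} {A : Set ι.El} {a b c κ : Ty}

/-- a cell: steps and row -/
@[reducible] def tyCell : Ty := .prod (.list (.prod .word .word)) .word

/-- a coordinate: its number in unary, and its cells -/
@[reducible] def tyCrd : Ty := .prod .word (.list tyCell)

/-- bounds: number of digits, base, threshold -/
@[reducible] def tyBnd : Ty := .prod .word (.prod .word .word)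

/-- instances: auxiliary word, coordinates, bounds, room -/
@[reducible] def tyIns : Ty := .prod .word (.prod (.list tyCrd) (.prod tyBnd .word))

/-- solutions: digits, answers -/
@[reducible] def tySlt : Ty := .prod (.list .word) (.list .word)

/-- the element with an index in unary -/
def nth (l : List (List Bool)) (w : List Bool) : List Bool := (l.drop w.length).headD []

/-- the value of a polynomial in unary -/
def ixW (ds : List (List Bool)) (st : List (List Bool × List Bool)) : List Bool :=
  st.flatMap fun e => (nth ds e.1).flatMap fun _ => e.2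

/-- the bit of a cell -/
def bitW (ds : List (List Bool)) (e : tyCell.El) : Bool :=
  (e.2.drop (ixW ds e.1).length).headD false

/-- the word of a coordinate -/
def blkW (ds : List (List Bool)) (l : List tyCell.El) : List Bool := l.map fun e => bitW ds e

/-- the instance coded by a word -/
def decI (X : List Bool) : tyIns.El := dec tyIns X.dropLast

/-- the solution coded by a word -/
def decS (Y : List Bool) : tySlt.El := dec tySlt Y.dropLast

/-- the elements of a list with a property -/
theorem PF.filter {l : a.El → List b.El} {φ : b.El × a.El → Bool} (hl : PF A a (.list b) l)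
    (hφ : PF A (.prod b a) .bool φ) :
    PF A a (.list b) (fun v => (l v).filter fun e => φ (e, v)) := by
  refine (PF.flatMap (φ := fun s => bif φ s then [s.1] else []) hl
    (hφ.cond' ((PF.fst _ _).cons' (PF.nil _ _)) (PF.nil _ _))).of_eq fun v => ?_
  induction l v with
  | nil => rfl
  | cons e t ih =>
    rw [List.flatMap_cons, ih, List.filter_cons]
    cases φ (e, v) <;> simp

theorem pf_nth {l : a.El → List (List Bool)} {w : a.El → List Bool} (hl : PF A a (.list .word) l)
    (hw : PF A a .word w) : PF A a .word (fun v => nth (l v) (w v)) :=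
  (PF.drop hw hl).headD (PF.nil _ _)

theorem pf_ixW {ds : a.El → List (List Bool)} {st : a.El → List (List Bool × List Bool)}
    (hd : PF A a (.list .word) ds) (hs : PF A a (.list (.prod .word .word)) st) :
    PF A a .word (fun v => ixW (ds v) (st v)) := by
  have h1 : PF A (.prod (.prod .word .word) a) .word (fun s => nth (ds s.2) s.1.1) :=
    pf_nth (hd.comp (PF.snd _ _)) (PF.fst _ _).fst'
  have h2 : PF A (.prod (.prod .word .word) a) .word
      (fun s => (nth (ds s.2) s.1.1).flatMap fun _ => s.1.2) :=
    PF.flatMap (b := .bool) (c := .bool) (a := .prod (.prod .word .word) a)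
      (φ := fun s => s.2.1.2) h1 (PF.snd _ _).fst'.snd'
  exact PF.flatMap (b := .prod .word .word) (c := .bool)
    (φ := fun s => (nth (ds s.2) s.1.1).flatMap fun _ => s.1.2) hs h2

theorem pf_bitW {ds : a.El → List (List Bool)} {e : a.El → tyCell.El}
    (hd : PF A a (.list .word) ds) (he : PF A a tyCell e) :
    PF A a .bool (fun v => bitW (ds v) (e v)) :=
  (PF.drop (pf_ixW hd he.fst') he.snd').headD (PF.ff _)

theorem pf_blkW {ds : a.El → List (List Bool)} {l : a.El → List tyCell.El}
    (hd : PF A a (.list .word) ds) (hl : PF A a (.list tyCell) l) :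
    PF A a .word (fun v => blkW (ds v) (l v)) :=
  PF.map (b := tyCell) (c := .bool) (φ := fun s => bitW (ds s.2) s.1) hl
    (pf_bitW (hd.comp (PF.snd _ _)) (PF.fst _ _))

theorem pf_decI {f : a.El → List Bool} (hf : PF A a .word f) :
    PF A a tyIns (fun v => decI (f v)) := PF.dec tyIns hf.dropLast

theorem pf_decS {f : a.El → List Bool} (hf : PF A a .word f) :
    PF A a tySlt (fun v => decS (f v)) := PF.dec tySlt hf.dropLast

section

variable (R : List Bool × (List Bool × List Bool) → Bool)

/-- the answer solves the word of the coordinate -/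
def goodW (x : List Bool) (y : tySlt.El) (e : tyCrd.El) : Bool :=
  R (x, (blkW y.1 e.2, nth y.2 e.1))

/-- the digit is correct -/
def digW (B d : List Bool) : Bool := d.all (fun t => t) && decide ((true :: d).length ≤ B.length)

/-- the format of the digits is correct -/
def fmtW (x : tyBnd.El) (ds : List (List Bool)) : Bool :=
  (decide (ds.length ≤ x.1.length) && decide (x.1.length ≤ ds.length)) &&
    ds.all fun d => digW x.2.1 d

/-- `y` is a solution of `x` -/
def okW (x : tyIns.El) (Y : List Bool) (y : tySlt.El) : Bool :=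
  (decide ((true :: Y).length ≤ x.2.2.2.length) && fmtW x.2.2.1 y.1) &&
    decide (x.2.2.1.2.2.length ≤ (x.2.1.filter fun e => goodW R x.1 y e).length)

/-- feasible nonempty words -/
def feasW (Z : List Bool × List Bool) : Bool :=
  decide ((true :: Z.2).length ≤ Z.1.length) && okW R (decI Z.1) Z.2 (decS Z.2)

/-- feasibility -/
def feasN (x y : ℕ) : Prop := (Nat.bits y).isEmpty = true ∨ feasW R (Nat.bits x, Nat.bits y) = true

/-- the cost, for words -/
def costW (Y : List Bool) : List Bool :=
  bif Y.isEmpty then [] else enc (.list .word) (decS Y).1 ++ [true]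

/-- the cost -/
def costN (y : ℕ) : ℕ := val (costW (Nat.bits y))

variable {R}

theorem pf_goodW (hR : PF A (.prod .word (.prod .word .word)) .bool R) {x : a.El → List Bool}
    {y : a.El → tySlt.El} {e : a.El → tyCrd.El} (hx : PF A a .word x) (hy : PF A a tySlt y)
    (he : PF A a tyCrd e) : PF A a .bool (fun v => goodW R (x v) (y v) (e v)) :=
  hR.comp (hx.pair ((pf_blkW hy.fst' he.snd').pair (pf_nth hy.snd' he.fst')))

theorem pf_digW {B d : a.El → List Bool} (hB : PF A a .word B) (hd : PF A a .word d) :
    PF A a .bool (fun v => digW (B v) (d v)) :=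
  (PF.all (b := .bool) (φ := fun s => s.1) hd (PF.fst _ _)).and'
    (PF.lengthLE ((PF.tt _).cons' hd) hB)

theorem pf_fmtW {x : a.El → tyBnd.El} {ds : a.El → List (List Bool)} (hx : PF A a tyBnd x)
    (hd : PF A a (.list .word) ds) : PF A a .bool (fun v => fmtW (x v) (ds v)) :=
  ((PF.lengthLE hd hx.fst').and' (PF.lengthLE hx.fst' hd)).and'
    (PF.all (b := .word) (φ := fun s => digW (x s.2).2.1 s.1) hd
      (pf_digW (hx.comp (PF.snd _ _)).snd'.fst' (PF.fst _ _)))

theorem pf_okW (hR : PF A (.prod .word (.prod .word .word)) .bool R) {x : a.El → tyIns.El}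
    {Y : a.El → List Bool} {y : a.El → tySlt.El} (hx : PF A a tyIns x) (hY : PF A a .word Y)
    (hy : PF A a tySlt y) : PF A a .bool (fun v => okW R (x v) (Y v) (y v)) := by
  have h1 : PF A a (.list tyCrd) (fun v => (x v).2.1.filter fun e => goodW R (x v).1 (y v) e) :=
    PF.filter (b := tyCrd) (φ := fun s => goodW R (x s.2).1 (y s.2) s.1) hx.snd'.fst'
      (pf_goodW hR (hx.comp (PF.snd _ _)).fst' (hy.comp (PF.snd _ _)) (PF.fst _ _))
  exact ((PF.lengthLE ((PF.tt _).cons' hY) hx.snd'.snd'.snd').and'
    (pf_fmtW hx.snd'.snd'.fst' hy.fst')).and' (PF.lengthLE hx.snd'.snd'.fst'.snd'.snd' h1)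

theorem pf_feasW (hR : PF A (.prod .word (.prod .word .word)) .bool R) :
    PF A (.prod .word .word) .bool (feasW R) :=
  (PF.lengthLE ((PF.tt _).cons' (PF.snd .word .word)) (PF.fst .word .word)).and'
    (pf_okW hR (pf_decI (PF.fst _ _)) (PF.snd _ _) (pf_decS (PF.snd _ _)))

theorem pf_costW {f : a.El → List Bool} (hf : PF A a .word f) :
    PF A a .word (fun v => costW (f v)) :=
  hf.isEmpty.cond' (PF.nil _ _) ((PF.enc (.list .word) (pf_decS hf).fst').append
    ((PF.tt _).cons' (PF.nil _ _)))

theorem optNw (hR : PF A (.prod .word (.prod .word .word)) .bool R) :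
    OptProblem A 0 (feasN R) costN where
  zero x := Or.inl (by simp)
  le x y h := by
    rcases h with h | h
    · rw [List.isEmpty_iff] at h
      rw [(bits_eq_nil.1 h : y = 0)]
      exact Nat.zero_le _
    · simp only [feasW, Bool.and_eq_true, decide_eq_true_eq, List.length_cons] at h
      exact le_of_length_lt (by omega)
  cost := ⟨costW, pf_costW (PF.id _), fun y => rfl⟩
  feas := ⟨fun Z => Z.2.isEmpty = true ∨ feasW R (Z.1, Z.2) = true,
    ⟨fun Z => !(Z.2.isEmpty || feasW R (Z.1, Z.2)),
      ((PF.snd .word .word).isEmpty.or' ((pf_feasW hR).comp ((PF.fst _ _).pair (PF.snd _ _)))).not',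
      fun v => by simp⟩, fun x y => Iff.rfl⟩

end

end Pool.Agent.Lib.MP_2b5695_lc.Nw
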