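import Pool.Agent.Lib.MP_2b5695_lc.Nw.Sim
import Pool.Agent.Lib.MP_2b5695_lc.Nw.Design

/-!
The instances of the optimization problem that belong to tables.
-/

namespace Pool.Agent.Lib.MP_2b5695_lc.Nw

open Alg Finset

variable {m n D L b : ℕ} {R : List Bool × (List Bool × List Bool) → Bool}

/-- unary numbers -/
abbrev un (k : ℕ) : List Bool := List.replicate k true

/-- the steps: the powers of the point that belongs to `k` and `j` -/
def stp (n L k j : ℕ) : List (List Bool × List Bool) :=
  List.ofFn fun i : Fin (L + 1) => (un i, un ((k * n + j) ^ (i : ℕ)))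

/-- the coordinates of a table -/
def crdT (L : ℕ) (a : Fin m → Fin n → Fin D → Bool) : List tyCrd.El :=
  List.ofFn fun k : Fin m => (un k, List.ofFn fun j : Fin n => (stp n L k j, List.ofFn (a k j)))

/-- number of digits, base, threshold, room -/
def bndT (L b θ room : ℕ) : (Ty.prod tyBnd .word).El := ((un (L + 1), (un b, un θ)), un room)

/-- the instance of a table -/
def insT (x : List Bool) (L b θ room : ℕ) (a : Fin m → Fin n → Fin D → Bool) : tyIns.El :=
  (x, (crdT L a, bndT L b θ room))

/-- the input word of a table -/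
def XT (x : List Bool) (L b θ room : ℕ) (a : Fin m → Fin n → Fin D → Bool) : List Bool :=
  enc tyIns (insT x L b θ room a) ++ [true]

/-- the digits of a position -/
def digT (p : Fin (L + 1) → Fin b) : List (List Bool) := List.ofFn fun i => un (p i)

/-- the cost of a position -/
def csT (p : Fin (L + 1) → Fin b) : ℕ := val (enc (.list .word) (digT p) ++ [true])

/-- the word of a coordinate of a block, as an argument of `R` -/
def zw (z : Fin n → Bool) : List Bool := List.ofFn z

/-- the template for the coordinate `k₀` at the position `p` -/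
def tmT (θ room : ℕ) (a : Fin m → Fin n → Fin D → Bool) (p : Fin (L + 1) → Fin b)
    (k₀ : Fin m) : tyTi.El :=
  (List.ofFn fun k : Fin m => (un k, List.ofFn fun j : Fin n => (un j, (stp n L k j,
    List.ofFn fun d : Fin D => (decide (k = k₀ ∧ (d : ℕ) = ix n p k j), a k j d)))),
    bndT L b θ room)

theorem decI_XT (x : List Bool) (L b θ room : ℕ) (a : Fin m → Fin n → Fin D → Bool) :
    decI (XT x L b θ room a) = insT x L b θ room a := by
  rw [decI, XT, List.dropLast_concat, dec_enc]

theorem bits_XT (x : List Bool) (L b θ room : ℕ) (a : Fin m → Fin n → Fin D → Bool) :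
    Nat.bits (val (XT x L b θ room a)) = XT x L b θ room a := bits_append_true _

theorem digT_inj {p p' : Fin (L + 1) → Fin b} (h : digT p = digT p') : p = p' := by
  rw [digT, digT] at h
  have h1 := List.ofFn_injective h
  funext i
  have h2 := congrArg List.length (congrFun h1 i)
  simp only [un, List.length_replicate] at h2
  exact Fin.ext h2

theorem enc_inj {a : Ty} {v v' : a.El} (h : enc a v = enc a v') : v = v' := by
  rw [← dec_enc a v, h, dec_enc]

theorem csT_eq_iff {p p' : Fin (L + 1) → Fin b} : csT p = csT p' ↔ p = p' := by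
  refine ⟨fun h => ?_, fun h => by rw [h]⟩
  rw [csT, csT] at h
  have h1 := congrArg Nat.bits h
  rw [bits_append_true, bits_append_true] at h1
  exact digT_inj (enc_inj (List.append_cancel_right h1))

theorem nth_ofFn {m : ℕ} (f : Fin m → List Bool) (k : Fin m) :
    nth (List.ofFn f) (un k) = f k := by
  rw [nth, un, List.length_replicate, List.drop_eq_getElem_cons (by simp)]
  simp

theorem nth_digT (p : Fin (L + 1) → Fin b) (i : Fin (L + 1)) : nth (digT p) (un i) = un (p i) :=
  nth_ofFn (fun i => un (p i)) i

theorem length_ixW (p : Fin (L + 1) → Fin b) (k j : ℕ) :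
    (ixW (digT p) (stp n L k j)).length = ix n p k j := by
  rw [ixW, List.length_flatMap, stp, List.map_ofFn, List.sum_ofFn, ix]
  refine Finset.sum_congr rfl fun i _ => ?_
  simp only [Function.comp_apply]
  rw [nth_digT, List.length_flatMap]
  simp [un]

theorem blkW_crdT (a : Fin m → Fin n → Fin D → Bool) (p : Fin (L + 1) → Fin b) (k : Fin m) :
    blkW (digT p) (List.ofFn fun j : Fin n => (stp n L k j, List.ofFn (a k j))) =
      zw (blkT a p k) := by
  rw [blkW, List.map_ofFn, zw]
  congr 1
  funext j
  simp only [Function.comp_apply, bitW, blkT]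
  rw [length_ixW]
  split_ifs with h
  · rw [List.drop_eq_getElem_cons (by simpa using h)]
    simp
  · rw [List.drop_eq_nil_of_le (by simpa using h)]
    rfl

theorem fmtW_iff {θ room : ℕ} {ds : List (List Bool)} :
    fmtW (bndT L b θ room).1 ds = true ↔ ∃ p : Fin (L + 1) → Fin b, ds = digT p := by
  simp only [fmtW, bndT, digW, Bool.and_eq_true, decide_eq_true_eq, List.all_eq_true,
    List.length_replicate, List.length_cons]
  constructor
  · rintro ⟨⟨h1, h2⟩, h3⟩
    have hl : ds.length = L + 1 := le_antisymm h1 h2
    refine ⟨fun i => ⟨(ds[(i : ℕ)]'(by omega)).length, (h3 _ (List.getElem_mem _)).2⟩, ?_⟩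
    refine List.ext_getElem (by simp [digT, hl]) fun i hi1 hi2 => ?_
    simp only [digT, List.getElem_ofFn, un]
    exact List.eq_replicate_iff.2 ⟨rfl, (h3 _ (List.getElem_mem _)).1⟩
  · rintro ⟨p, rfl⟩
    refine ⟨⟨by simp [digT], by simp [digT]⟩, fun d hd => ?_⟩
    rw [digT, List.mem_ofFn] at hd
    obtain ⟨i, rfl⟩ := hd
    refine ⟨fun x hx => (List.mem_replicate.1 hx).2, ?_⟩
    rw [List.length_replicate]
    exact (p i).2

theorem length_room (x : List Bool) (L b θ room : ℕ) (a : Fin m → Fin n → Fin D → Bool) :
    room ≤ (XT x L b θ room a).length := by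
  rw [XT, List.length_append, List.length_singleton]
  have h1 := length_enc_prod (a := .word) (b := .prod (.list tyCrd) (.prod tyBnd .word))
    (insT x L b θ room a)
  have h2 := length_enc_prod (a := .list tyCrd) (b := .prod tyBnd .word)
    (insT x L b θ room a).2
  have h3 := length_enc_prod (a := tyBnd) (b := .word) (insT x L b θ room a).2.2
  have h4 := length_enc_list (b := .bool) (insT x L b θ room a).2.2.2
  have h5 : (insT x L b θ room a).2.2.2.length = room := by
    simp [insT, bndT]
  have h6 : (enc Ty.word (insT x L b θ room a).2.2.2).length =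
    (enc (.list .bool) (insT x L b θ room a).2.2.2).length := rfl
  have h7 : (enc tyIns (insT x L b θ room a)).length =
    (enc (.prod .word (.prod (.list tyCrd) (.prod tyBnd .word))) (insT x L b θ room a)).length := rfl
  have h8 : (enc (.list .bool) (insT x L b θ room a).2.2.2).length ≥ room := by
    rw [h5] at h4; exact h4
  rw [h7]
  omega

/-- the number of the coordinates of the block at `p` that are solved by `ys` -/
def cnt (R : List Bool × (List Bool × List Bool) → Bool) (x : List Bool)
    (a : Fin m → Fin n → Fin D → Bool) (p : Fin (L + 1) → Fin b) (ys : List (List Bool)) : ℕ :=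
  ((univ : Finset (Fin m)).filter fun k => R (x, (zw (blkT a p k), nth ys (un k))) = true).card

theorem length_filter_ofFn {α : Type} (f : Fin m → α) (P : α → Bool) :
    ((List.ofFn f).filter P).length = ((univ : Finset (Fin m)).filter fun k => P (f k) = true).card := by
  rw [← List.countP_eq_length_filter, Finset.card_filter]
  induction m with
  | zero => simp
  | succ m ih =>
    rw [List.ofFn_succ, List.countP_cons, Fin.sum_univ_succ, ih]
    simp only [add_comm]

theorem feasW_XT {x : List Bool} {θ room : ℕ} {a : Fin m → Fin n → Fin D → Bool}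
    {Y : List Bool} : feasW R (XT x L b θ room a, Y) = true ↔
      Y.length + 1 ≤ room ∧ ∃ p : Fin (L + 1) → Fin b, (decS Y).1 = digT p ∧
        θ ≤ cnt R x a p (decS Y).2 := by
  have h1 := length_room x L b θ room a
  simp only [feasW, okW, decI_XT, Bool.and_eq_true, decide_eq_true_eq, List.length_cons]
  have h2 : (insT x L b θ room a).2.2.2.length = room := by simp [insT, bndT]
  have h3 : (insT x L b θ room a).2.2.1 = (bndT L b θ room).1 := rfl
  have h4 : (insT x L b θ room a).2.2.1.2.2.length = θ := by simp [insT, bndT]
  have h5 : (insT x L b θ room a).2.1 = crdT L a := rfl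
  have h6 : (insT x L b θ room a).1 = x := rfl
  rw [h2, h4, h3, h5, h6, fmtW_iff]
  have h7 : ∀ p : Fin (L + 1) → Fin b, (decS Y).1 = digT p →
      ((crdT L a).filter fun e => goodW R x (decS Y) e).length = cnt R x a p (decS Y).2 := by
    intro p hp
    rw [crdT, length_filter_ofFn, cnt]
    refine congrArg Finset.card (Finset.filter_congr fun k _ => ?_)
    rw [goodW, hp, blkW_crdT]
  constructor
  · rintro ⟨-, ⟨h8, p, hp⟩, h9⟩
    exact ⟨h8, p, hp, by rw [← h7 p hp]; exact h9⟩
  · rintro ⟨h8, p, hp, h9⟩
    exact ⟨by omega, ⟨h8, p, hp⟩, by rw [h7 p hp]; exact h9⟩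

theorem costW_eq {Y : List Bool} {p : Fin (L + 1) → Fin b} (h : (decS Y).1 = digT p) :
    val (costW Y) = csT p := by
  have hY : Y.isEmpty = false := by
    by_contra hc
    rw [Bool.not_eq_false, List.isEmpty_iff] at hc
    rw [hc] at h
    have h1 := congrArg List.length h
    rw [digT, List.length_ofFn] at h1
    have h2 : (decS []).1 = [] := rfl
    rw [h2] at h1
    simp at h1
  rw [costW, hY, cond_false, h, csT]

/-- the blocks decide about feasibility -/
theorem feasW_congr {x : List Bool} {θ room : ℕ} {a a' : Fin m → Fin n → Fin D → Bool}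
    {Y : List Bool} {p : Fin (L + 1) → Fin b} (h : (decS Y).1 = digT p)
    (hb : blkT a p = blkT a' p) :
    feasW R (XT x L b θ room a, Y) = feasW R (XT x L b θ room a', Y) := by
  rw [Bool.eq_iff_iff, feasW_XT, feasW_XT]
  refine and_congr_right fun _ => exists_congr fun p' => and_congr_right fun hp' => ?_
  rw [h] at hp'
  obtain rfl := digT_inj hp'
  rw [cnt, cnt, hb]

theorem fill_tmT (x : List Bool) (θ room : ℕ) (a : Fin m → Fin n → Fin D → Bool)
    (p : Fin (L + 1) → Fin b) (k₀ : Fin m) (z : Fin n → Bool) :
    fillI x (zw z) (tmT θ room a p k₀) =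
      insT x L b θ room (updT a p (Function.update (blkT a p) k₀ z)) := by
  rw [fillI, insT, tmT]
  refine Prod.ext rfl (Prod.ext ?_ rfl)
  simp only [crdT, List.map_ofFn]
  congr 1
  funext k
  simp only [Function.comp_apply, fillD, List.map_ofFn]
  refine Prod.ext rfl ?_
  simp only
  congr 1
  funext j
  simp only [Function.comp_apply, fillC, List.map_ofFn]
  refine Prod.ext rfl ?_
  simp only
  congr 1
  funext d
  simp only [Function.comp_apply, updT]
  have hz : ((zw z).drop (un j).length).headD false = z j := by
    rw [zw, un, List.length_replicate, List.drop_eq_getElem_cons (by simp)]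
    simp
  rw [hz]
  by_cases hd : (d : ℕ) = ix n p k j
  · rw [if_pos hd]
    by_cases hk : k = k₀
    · subst hk
      simp [hd]
    · rw [Function.update_of_ne hk]
      simp only [hk, false_and, decide_false, cond_false]
      rw [blkT, dif_pos (by rw [← hd]; exact d.2)]
      congr 1
      exact Fin.ext hd
  · rw [if_neg hd]
    simp [hd]

theorem inW_tmT (x : List Bool) (θ room : ℕ) (a : Fin m → Fin n → Fin D → Bool)
    (p : Fin (L + 1) → Fin b) (k₀ : Fin m) (z : Fin n → Bool) :
    inW x (zw z) (tmT θ room a p k₀) =
      XT x L b θ room (updT a p (Function.update (blkT a p) k₀ z)) := by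
  rw [inW, fill_tmT, XT]

end Pool.Agent.Lib.MP_2b5695_lc.Nw
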