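import Pool.Agent.Lib.MP_2b5695_lc.Nw.Final

/-!
The main theorem at the level zero.
-/

namespace Pool.Agent.Lib.MP_2b5695_lc.Nw

open Alg Finset

variable {ι κ : Ty} {A : Set ι.El} {R : List Bool × (List Bool × List Bool) → Bool}
  {g : κ.El → Bool} {S : List Bool × Ty.history.El → (Ty.move κ).El}

open Classical in
theorem sim_of_computed {m n D L b θ : ℕ} {c : List Bool} {Pe Pi q p : Polynomial ℕ}
    {O : Set κ.El} (hgO : ∀ v, v ∈ O ↔ g v = true)
    (hE : ∀ x : ℕ, Ensures O (Answers (feasN (RR R p)) costN x) (Optimal (feasN (RR R p)) costN x)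
      (fun h => S (Nat.bits x, h)) (q.eval (Nat.bits x).length) [])
    (hPe : ∀ v : tySlt.El, (enc tySlt v).length ≤ Pe.eval (tySlt.size v))
    (hPi : ∀ v : tyIns.El, (enc tyIns v).length ≤ Pi.eval (tyIns.size v))
    (hlil : Lil c m n D L b θ D) {room T : ℕ} (hroom : room = (pRoom Pe p).eval D)
    (hT : T = (pTime Pe Pi q p).eval D) {U : List (List Bool)}
    (hU1 : ∀ Z ∈ U, Nat.bits (val Z) = Z ∧ Z.length ≤ room)
    (hU2 : ∀ z : ℕ, (Nat.bits z).length ≤ room → Nat.bits z ∈ U)
    (hU3 : U.Pairwise fun Z Z' => val (costW Z) ≤ val (costW Z'))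
    (tb : Fin m → Fin n → Fin D → Bool)
    (htb : T < ((univ : Finset (Fin (L + 1) → Fin b)).filter fun pp =>
        θ ≤ ((univ : Finset (Fin m)).filter fun k =>
          blkT tb pp k ∈ solS (RR R p) c n).card).card) :
    ∃ pp : Fin (L + 1) → Fin b, θ ≤ ((univ : Finset (Fin m)).filter fun k =>
      SimT (RR R p) g S c θ room U T tb pp k ∧ blkT tb pp k ∈ solS (RR R p) c n).card := by
  refine exists_sim (O := O) (fun z => (hgO z).symm) hU1 hU2 hU3 tb ?_ ?_ htb
  · have h1 := hE (val (XT c L b θ room tb))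
    rw [bits_XT] at h1
    refine Up.ensures_mono ?_ h1
    rw [hT, pTime, Polynomial.eval_comp]
    refine eval_mono q ?_
    rw [XT, List.length_append, List.length_singleton, eval_pLen, ← hroom]
    exact Nat.add_le_add_right ((hPi _).trans (eval_mono _ (hlil.ins tb))) _
  · intro pp ys hys
    have hys' : ∀ k, (ys k).length ≤ p.eval (2 * D) := by
      intro k
      rcases hys k with h | h
      · rw [h]; exact Nat.zero_le _
      · simp only [RR, Bool.and_eq_true, decide_eq_true_eq] at h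
        refine h.2.trans (eval_mono p ?_)
        have h1 := hlil.hx
        have h2 := hlil.hn
        rw [zw, List.length_ofFn]
        omega
    rw [List.length_append, List.length_singleton]
    have h1 := (hPe (digT pp, List.ofFn ys)).trans (eval_mono _ (hlil.slt pp hys'))
    rw [hroom, eval_pRoom]
    omega

theorem advice_length {m n D L b θ : ℕ} {c : List Bool} {Pt : Polynomial ℕ}
    (hPt : ∀ v : List tyTry.El, (enc (.list tyTry) v).length ≤ Pt.eval (Ty.size (.list tyTry) v))
    (hlil : Lil c m n D L b θ D) {room T K K' : ℕ} {U : List (List Bool)}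
    (hU0 : U.Nodup) (hU1 : ∀ Z ∈ U, Nat.bits (val Z) = Z ∧ Z.length ≤ room)
    (hU3 : U.Pairwise fun Z Z' => val (costW Z) ≤ val (costW Z'))
    (pp : Fin (L + 1) → Fin b) (l : List ((Fin m → Fin n → Fin D → Bool) × Fin m))
    (hl : l.length = K) (hK : K ≤ K') :
    (enc (.list tyTry) (l.map fun e =>
      (tmT θ room e.1 pp e.2, (tabT R c θ room U e.1 pp, un T)))).length ≤
    Pt.eval (K' * ((8 * D + 2 * room + D * (2 * D + D * (D * (4 * D + 1) + 5 * D + 1) + 1)) +
      (b ^ (L + 1) * 2 ^ L * (2 * room + 1) + 2 * T) + 1)) := by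
  refine (hPt _).trans (eval_mono _ ?_)
  refine (size_list_le (a := tyTry) _ fun e he => ?_).trans (Nat.mul_le_mul_right _ ?_)
  · rw [List.mem_map] at he
    obtain ⟨e', -, rfl⟩ := he
    have h1 : Ty.size (.prod (.list .word) .word) (tabT R c θ room U e'.1 pp, un T) =
        Ty.size (.list .word) (tabT R c θ room U e'.1 pp) + 2 * T := by
      rw [size_prod]
      simp only [size_un]
    rw [size_prod]
    simp only
    rw [h1]
    exact Nat.add_le_add (hlil.tm _ _ _) (Nat.add_le_add_right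
      (size_tabT hU0 (fun Z hZ => (hU1 Z hZ).2) hU3 _ _) _)
  · rw [List.length_map, hl]
    exact hK

open Classical in
/-- one case of the main theorem -/
theorem exists_advice {m n D L b θ t T K : ℕ} {c : List Bool} {p : Polynomial ℕ}
    {room : ℕ} {U : List (List Bool)}
    (hixlt : ∀ (pp : Fin (L + 1) → Fin b) (k : Fin m) (j : Fin n), ix n pp k j < D)
    (ht : 1 ≤ t) (hm : 1 ≤ m) (hb : 1 ≤ b)
    (hθ1 : (((solS (RR R p) c n).card : ℝ) / Fintype.card (Fin n → Bool) - 1 / (2 * t)) * m ≤ θ)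
    (hθ2 : (θ : ℝ) <
      (((solS (RR R p) c n).card : ℝ) / Fintype.card (Fin n → Bool) - 1 / (2 * t)) * m + 1)
    (hq : 4 * t * T ≤ b ^ (L + 1))
    (hexp : 8 * (t : ℝ) * ((b ^ (L + 1) : ℕ) : ℝ) < Real.exp ((m : ℝ) / (16 * (t : ℝ) ^ 2)))
    (hsim : ∀ tb : Fin m → Fin n → Fin D → Bool,
      T < ((univ : Finset (Fin (L + 1) → Fin b)).filter fun pp =>
        θ ≤ ((univ : Finset (Fin m)).filter fun k =>
          blkT tb pp k ∈ solS (RR R p) c n).card).card →
      ∃ pp : Fin (L + 1) → Fin b, θ ≤ ((univ : Finset (Fin m)).filter fun k =>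
        SimT (RR R p) g S c θ room U T tb pp k ∧ blkT tb pp k ∈ solS (RR R p) c n).card)
    (hK : ((2 ^ n : ℕ) : ℝ) < Real.exp ((K : ℝ) /
      (8 * (t : ℝ) * (m : ℝ) * ((b ^ (L + 1) : ℕ) : ℝ)))) :
    ∃ (pp : Fin (L + 1) → Fin b) (l : List ((Fin m → Fin n → Fin D → Bool) × Fin m)),
      l.length = K ∧ t * (Finset.univ.filter fun z : Fin n → Bool =>
        (∃ y : List Bool, y.length ≤ p.eval (c.length + n) ∧ R (c, (List.ofFn z, y)) = true) ∧
          ¬ R (c, (List.ofFn z, algT (RR R p) g S (c, (List.ofFn z, enc (.list tyTry)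
            (l.map fun e => (tmT θ room e.1 pp e.2,
              (tabT (RR R p) c θ room U e.1 pp, un T))))))) = true).card ≤ 2 ^ n := by
  have hcardZ : Fintype.card (Fin n → Bool) = 2 ^ n := by simp
  have hcardP : Fintype.card (Fin (L + 1) → Fin b) = b ^ (L + 1) := by simp
  have hne : Nonempty (Fin b) := ⟨⟨0, hb⟩⟩
  obtain ⟨pp, l, hl, hcard⟩ := exists_tries (Ω := Fin m → Fin n → Fin D → Bool)
    (P := Fin (L + 1) → Fin b) (Z := Fin n → Bool) (m := m) (fun tb pp k => blkT tb pp k)
    (fun tb pp v => updT tb pp v) (fun tb pp => updT_blkT tb pp)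
    (fun tb pp v => blkT_updT hixlt tb pp v) (fun tb pp v v' => updT_updT tb pp v v')
    (solS (RR R p) c n) (t := t) (θ := θ) (q := T) ht hm hθ1 hθ2
    (by rw [hcardP]; exact hq) (by rw [hcardP]; exact hexp)
    (fun tb pp k => SimT (RR R p) g S c θ room U T tb pp k)
    (fun tb htb => by
      obtain ⟨pp, h⟩ := hsim tb (by convert htb)
      exact ⟨pp, by convert h⟩) (K := K)
    (by rw [hcardZ, hcardP]; exact hK)
  refine ⟨pp, l, hl, ?_⟩
  rw [hcardZ] at hcard
  have hcard' : t * ((solS (RR R p) c n).filter fun z => ∀ e ∈ l,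
      ¬ SimT (RR R p) g S c θ room U T
        (updT e.1 pp (Function.update (fun k => blkT e.1 pp k) e.2 z)) pp e.2).card ≤ 2 ^ n := by
    convert hcard
  refine (Nat.mul_le_mul_left _ (Finset.card_le_card fun z hz => ?_)).trans hcard'
  rw [Finset.mem_filter] at hz ⊢
  refine ⟨?_, fun e he hsimz => hz.2.2 ?_⟩
  · obtain ⟨y, hy1, hy2⟩ := hz.2.1
    rw [solS, Finset.mem_filter]
    refine ⟨Finset.mem_univ _, y, ?_⟩
    simp only [RR, zw, hy2, List.length_ofFn, Bool.true_and, decide_eq_true_eq]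
    exact hy1
  · have h1 := algT_success (R := RR R p) (g := g) (S := S) hsimz
      (by rw [blkT_updT hixlt]; exact Function.update_self ..)
      (l := l.map fun e => (tmT θ room e.1 pp e.2, (tabT (RR R p) c θ room U e.1 pp, un T)))
      (by rw [List.mem_map]; exact ⟨e, he, rfl⟩)
    simp only [RR, Bool.and_eq_true] at h1
    exact h1.1

end Pool.Agent.Lib.MP_2b5695_lc.Nw
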