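import Mathlib

/-!
A tail bound for the number of coordinates of a random tuple in a small set.
-/

namespace Pool.Agent.Lib.MP_2b5695_lc.Nw

open Finset

open Classical in
theorem mgf_bound {Z : Type} [Fintype Z] [Nonempty Z] {m : ℕ} (G : Finset Z) {t θ : ℕ}
    (ht : 1 ≤ t) {β : ℝ} (hβ : β ≤ 1) (hG : (G.card : ℝ) ≤ (β - 1 / t) * Fintype.card Z)
    (hθ : (β - 1 / (2 * t)) * m ≤ θ) :
    (((univ : Finset (Fin m → Z)).filter fun v =>
      θ ≤ ((univ : Finset (Fin m)).filter fun k => v k ∈ G).card).card : ℝ) ≤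
      (Fintype.card Z : ℝ) ^ m * Real.exp (-((m : ℝ) / (16 * (t : ℝ) ^ 2))) := by
  have ht' : (1 : ℝ) ≤ t := by exact_mod_cast ht
  have ht0 : (0 : ℝ) < t := by linarith
  have hz : (0 : ℝ) < Fintype.card Z := by exact_mod_cast Fintype.card_pos
  set z : ℝ := (Fintype.card Z : ℝ) with hzdef
  set g : ℝ := (G.card : ℝ) / z with hg
  have hg0 : 0 ≤ g := by positivity
  have hgle : g ≤ β - 1 / t := by
    rw [hg, div_le_iff₀ hz]
    exact hG
  have hgz : g * z = G.card := by
    rw [hg]
    field_simp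
  set x : ℝ := 1 / (4 * t) with hx
  have hx0 : 0 < x := by positivity
  have hx1 : x ≤ 1 := by
    rw [hx, div_le_one (by positivity)]
    linarith
  have hexp : Real.exp x - 1 ≤ x + x ^ 2 := by
    have h := Real.abs_exp_sub_one_sub_id_le (x := x) (by rw [abs_of_pos hx0]; exact hx1)
    have := le_abs_self (Real.exp x - 1 - x)
    linarith
  have hexp0 : 0 ≤ Real.exp x - 1 := by
    have := Real.add_one_le_exp x
    linarith
  -- the moment generating function
  have hsum : ∑ v : Fin m → Z, Real.exp (x * ((univ.filter fun k => v k ∈ G).card : ℝ)) =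
      (z * (1 + (Real.exp x - 1) * g)) ^ m := by
    have h1 : ∀ v : Fin m → Z, Real.exp (x * ((univ.filter fun k => v k ∈ G).card : ℝ)) =
        ∏ k, (if v k ∈ G then Real.exp x else 1) := by
      intro v
      rw [prod_ite, prod_const, prod_const_one, mul_one, ← Real.exp_nat_mul, mul_comm]
    rw [sum_congr rfl fun v _ => h1 v, ← Fintype.sum_pow (fun a => if a ∈ G then Real.exp x else 1)]
    congr 1
    rw [sum_ite, sum_const, sum_const, nsmul_eq_mul, nsmul_eq_mul, filter_mem_eq_inter,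
      univ_inter]
    have h2 : ((univ.filter fun a => a ∉ G).card : ℝ) = z - G.card := by
      have h3 : (univ.filter fun a => a ∉ G) = Gᶜ := by
        ext a
        simp
      rw [h3, card_compl, Nat.cast_sub (card_le_univ G)]
    rw [h2, ← hgz]
    ring
  -- Markov
  set F := (univ : Finset (Fin m → Z)).filter fun v =>
      θ ≤ ((univ : Finset (Fin m)).filter fun k => v k ∈ G).card with hF
  have hmar : (F.card : ℝ) * Real.exp (x * θ) ≤ (z * (1 + (Real.exp x - 1) * g)) ^ m := by
    rw [← hsum, ← nsmul_eq_mul, ← sum_const]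
    refine (sum_le_sum fun v hv => ?_).trans
      (sum_le_sum_of_subset_of_nonneg (subset_univ F) fun v _ _ => (Real.exp_pos _).le)
    have h1 := (mem_filter.1 hv).2
    apply Real.exp_le_exp.2
    have h2 : (θ : ℝ) ≤ ((univ.filter fun k => v k ∈ G).card : ℝ) := by exact_mod_cast h1
    exact mul_le_mul_of_nonneg_left h2 hx0.le
  have hbase : (z * (1 + (Real.exp x - 1) * g)) ^ m ≤
      z ^ m * Real.exp (m * (x * (β - 1 / t) + x ^ 2)) := by
    rw [mul_pow, Real.exp_nat_mul]
    refine mul_le_mul_of_nonneg_left (pow_le_pow_left₀ (by positivity) ?_ m) (by positivity)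
    have h1 : 1 + (Real.exp x - 1) * g ≤ (x + x ^ 2) * g + 1 := by nlinarith
    have h2 : (x + x ^ 2) * g ≤ x * (β - 1 / t) + x ^ 2 := by
      have h3 : 0 < 1 / (t : ℝ) := by positivity
      have h4 : g ≤ 1 := by linarith
      nlinarith [mul_le_mul_of_nonneg_left hgle hx0.le, mul_le_mul_of_nonneg_left h4 (sq_nonneg x)]
    calc 1 + (Real.exp x - 1) * g ≤ (x * (β - 1 / t) + x ^ 2) + 1 := by linarith
      _ ≤ Real.exp (x * (β - 1 / t) + x ^ 2) := Real.add_one_le_exp _
  have h5 : (F.card : ℝ) * Real.exp (x * θ) ≤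
      z ^ m * Real.exp (m * (x * (β - 1 / t) + x ^ 2)) := hmar.trans hbase
  have h6 : (F.card : ℝ) ≤ z ^ m * Real.exp (m * (x * (β - 1 / t) + x ^ 2) - x * θ) := by
    rw [Real.exp_sub, ← mul_div_assoc, le_div_iff₀ (Real.exp_pos _)]
    exact h5
  refine h6.trans (mul_le_mul_of_nonneg_left (Real.exp_le_exp.2 ?_) (by positivity))
  have h7 : x * ((β - 1 / (2 * t)) * m) ≤ x * θ := mul_le_mul_of_nonneg_left hθ hx0.le
  have h8 : m * (x * (β - 1 / t) + x ^ 2) - x * ((β - 1 / (2 * t)) * m) =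
      -((m : ℝ) / (16 * (t : ℝ) ^ 2)) := by
    rw [hx]
    field_simp
    ring
  linarith

end Pool.Agent.Lib.MP_2b5695_lc.Nw
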