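import Pool.Agent.Lib.MP_2b5695_lc.Nw.Sim

/-!
The runs of a computation against an adversary with a table, and the first solution that is found
by the computation itself.
-/

namespace Pool.Agent.Lib.MP_2b5695_lc.Nw

open Alg

variable {κ : Ty} (R : List Bool × (List Bool × List Bool) → Bool) (g : κ.El → Bool)
  (S : List Bool × Ty.history.El → (Ty.move κ).El) (v : tyEnv.El)

/-- the history after `t` steps -/
def hsT (t : ℕ) : List (Bool × List Bool) :=
  histT (feasW R) costW g S v (List.replicate t true)

/-- the move after `t` steps -/
def mvT (t : ℕ) : (Ty.move κ).El := S (v.1, hsT R g S v t)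

/-- the word presented or given as output after `t` steps -/
def wdT (t : ℕ) : List Bool := norm (mvT R g S v t).2.2

/-- `U` is a complete table for the input `X`, sorted by cost -/
structure Full (X : List Bool) (U : List (List Bool)) : Prop where
  bitsX : Nat.bits (val X) = X
  bits : ∀ Z ∈ U, Nat.bits (val Z) = Z
  all : ∀ z : ℕ, feasW R (X, Nat.bits z) = true → Nat.bits z ∈ U
  sorted : U.Pairwise fun Z Z' => val (costW Z) ≤ val (costW Z')

variable {R g S v}

theorem hsT_succ (t : ℕ) : hsT R g S v (t + 1) =
    ansT (feasW R) costW g v (mvT R g S v t) :: hsT R g S v t := rfl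

/-- two tables that give the same answers give the same run -/
theorem hsT_congr {X : List Bool} {U U' : List (List Bool)} {t : ℕ}
    (h : ∀ τ < t, (mvT R g S (X, U) τ).1.1 = true → (mvT R g S (X, U) τ).1.2 = true →
      advT (feasW R) costW (X, U) (wdT R g S (X, U) τ) =
        advT (feasW R) costW (X, U') (wdT R g S (X, U) τ)) :
    hsT R g S (X, U') t = hsT R g S (X, U) t := by
  induction t with
  | zero => rfl
  | succ t ih =>
    have ih' := ih fun τ hτ => h τ (Nat.lt_succ_of_lt hτ)
    have hm : mvT R g S (X, U') t = mvT R g S (X, U) t := by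
      rw [mvT, mvT, ih']
    rw [hsT_succ, hsT_succ, ih', hm]
    congr 1
    have h1 := h t (Nat.lt_succ_self t)
    rw [wdT] at h1
    rw [ansT, ansT]
    cases h2 : (mvT R g S (X, U) t).1.1
    · rfl
    · cases h3 : (mvT R g S (X, U) t).1.2
      · rfl
      · exact (h1 h2 h3).symm

/-- the answers from a complete table follow the rules -/
theorem Full.legal {X : List Bool} {U : List (List Bool)} (hU : Full R X U) (y : ℕ) :
    (∃ z, advT (feasW R) costW (X, U) (Nat.bits y) = (false, Nat.bits z) ∧
      Answers (feasN R) costN (val X) y (some z)) ∨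
    (advT (feasW R) costW (X, U) (Nat.bits y) = (true, []) ∧
      Answers (feasN R) costN (val X) y none) := by
  have hCiff : ∀ z, feasN R (val X) z ↔ ((Nat.bits z).isEmpty = true ∨
      feasW R (X, Nat.bits z) = true) := fun z => by
    rw [feasN, hU.bitsX]
  cases h0 : (Nat.bits y).isEmpty || feasW R (X, Nat.bits y)
  · left
    refine ⟨0, ?_, Nat.zero_le _, fun hB => ?_⟩
    · rw [advT]
      simp only [h0, cond_false, Nat.zero_bits]
    · have h1 := (hCiff y).1 hB.1
      rw [Bool.or_eq_false_iff] at h0
      rw [h0.1, h0.2] at h1
      simp at h1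
  · have hy : feasN R (val X) y := (hCiff y).2 (by
      rw [Bool.or_eq_true] at h0
      exact h0)
    have hadv : advT (feasW R) costW (X, U) (Nat.bits y) =
        ((nxtT (feasW R) costW (X, U) (Nat.bits y)).isEmpty,
          (nxtT (feasW R) costW (X, U) (Nat.bits y)).headD []) := by
      rw [advT]
      simp only [h0, cond_true]
    have hmem : ∀ Z, Z ∈ nxtT (feasW R) costW (X, U) (Nat.bits y) ↔
        Z ∈ U ∧ feasW R (X, Z) = true ∧ val (costW (Nat.bits y)) < val (costW Z) := by
      intro Z
      rw [nxtT, List.mem_filter, Bool.and_eq_true, decide_eq_true_eq]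
    rw [hadv]
    cases hn : nxtT (feasW R) costW (X, U) (Nat.bits y) with
    | nil =>
      right
      refine ⟨rfl, hy, fun z hz => ?_⟩
      rcases (hCiff z).1 hz with h1 | h1
      · rw [costN, costW, h1, cond_true, val]
        exact Nat.zero_le _
      · by_contra hlt
        push Not at hlt
        have h2 := (hmem (Nat.bits z)).2 ⟨hU.all z h1, h1, hlt⟩
        rw [hn] at h2
        cases h2
    | cons Z l =>
      left
      obtain ⟨h1, h2, h3⟩ := (hmem Z).1 (by rw [hn]; exact List.mem_cons_self)
      have h4 := hU.bits Z h1
      refine ⟨val Z, ?_, ?_, fun hB => ?_⟩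
      · rw [h4]
        rfl
      · have h5 := h2
        simp only [feasW, Bool.and_eq_true, decide_eq_true_eq, List.length_cons] at h5
        apply le_of_length_lt
        rw [h4, hU.bitsX]
        omega
      · refine hB.2 ?_ ((hCiff (val Z)).2 (Or.inr (by rw [h4]; exact h2)))
        rw [costN, costN, h4]
        exact h3

open Classical in
private theorem stops_aux {X : List Bool} {U : List (List Bool)} (hU : Full R X U) {O : Set κ.El}
    (hg : ∀ q, g q = true ↔ q ∈ O) :
    ∀ (n t : ℕ), Ensures O (Answers (feasN R) costN (val X)) (Optimal (feasN R) costN (val X))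
      (fun h => S (X, h)) n (hsT R g S (X, U) t) →
    ∃ t', t' < t + n ∧ Optimal (feasN R) costN (val X) (val (mvT R g S (X, U) t').2.2)
  | 0, _, h => h.elim
  | n + 1, t, h => by
    rw [Ensures] at h
    have hm : S (X, hsT R g S (X, U) t) = mvT R g S (X, U) t := rfl
    rw [hm] at h
    have hnext : ∀ e, e = ansT (feasW R) costW g (X, U) (mvT R g S (X, U) t) →
        Ensures O (Answers (feasN R) costN (val X)) (Optimal (feasN R) costN (val X))
        (fun h => S (X, h)) n (e :: hsT R g S (X, U) t) → ∃ t', t' < t + (n + 1) ∧
        Optimal (feasN R) costN (val X) (val (mvT R g S (X, U) t').2.2) := by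
      intro e he h1
      rw [he, ← hsT_succ] at h1
      obtain ⟨t', h2, h3⟩ := stops_aux hU hg n (t + 1) h1
      exact ⟨t', by omega, h3⟩
    by_cases hstop : (mvT R g S (X, U) t).1.1 = true
    · by_cases hpres : (mvT R g S (X, U) t).1.2 = true
      · have hans : ansT (feasW R) costW g (X, U) (mvT R g S (X, U) t) =
            advT (feasW R) costW (X, U) (Nat.bits (val (mvT R g S (X, U) t).2.2)) := by
          rw [ansT, hstop, hpres, norm_eq]; rfl
        rw [hans] at hnext
        have hleg := hU.legal (val (mvT R g S (X, U) t).2.2)
        revert h hnext hstop hpres hleg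
        generalize mvT R g S (X, U) t = m
        obtain ⟨⟨m1, m2⟩, q, w⟩ := m
        intro h hnext hstop hpres hleg
        simp only at hstop hpres
        subst hstop; subst hpres
        simp only at h hnext hleg
        rcases hleg with ⟨z, h1, h2⟩ | ⟨h1, h2⟩
        · exact hnext _ h1.symm (h.2 z h2)
        · exact hnext _ h1.symm (h.1 h2)
      · rw [Bool.not_eq_true] at hpres
        have hans : ansT (feasW R) costW g (X, U) (mvT R g S (X, U) t) =
            (g (mvT R g S (X, U) t).2.1, []) := by
          rw [ansT, hstop, hpres]; rfl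
        rw [hans] at hnext
        revert h hnext hstop hpres
        generalize mvT R g S (X, U) t = m
        obtain ⟨⟨m1, m2⟩, q, w⟩ := m
        intro h hnext hstop hpres
        simp only at hstop hpres
        subst hstop; subst hpres
        simp only at h hnext
        refine hnext _ ?_ h
        congr 1
        rw [Bool.eq_iff_iff, decide_eq_true_iff]
        exact (hg q).symm
    · refine ⟨t, by omega, ?_⟩
      revert h hstop
      generalize mvT R g S (X, U) t = m
      obtain ⟨⟨m1, m2⟩, q, w⟩ := m
      intro h hstop
      cases m1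
      · exact h
      · exact absurd rfl hstop

/-- the run stops with an optimal solution -/
theorem Full.stops {X : List Bool} {U : List (List Bool)} (hU : Full R X U) {O : Set κ.El}
    (hg : ∀ q, g q = true ↔ q ∈ O) {n : ℕ}
    (h : Ensures O (Answers (feasN R) costN (val X)) (Optimal (feasN R) costN (val X))
      (fun h => S (X, h)) n []) :
    ∃ t < n, Optimal (feasN R) costN (val X) (val (mvT R g S (X, U) t).2.2) := by
  obtain ⟨t, h1, h2⟩ := stops_aux hU hg n 0 h
  exact ⟨t, by omega, h2⟩

/-- the words of the moves -/
theorem mem_wordsT {t T : ℕ} (ht : t < T) :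
    wdT R g S v t ∈ wordsT S v.1 (histT (feasW R) costW g S v (List.replicate T true)) := by
  have key : ∀ n, t < n → wdT R g S v t ∈ wordsT S v.1 (hsT R g S v n) := by
    intro n
    induction n with
    | zero => intro h; omega
    | succ n ih =>
      intro h
      rw [hsT_succ, wordsT, scan, List.mem_cons]
      rcases Nat.lt_succ_iff_lt_or_eq.1 h with h | rfl
      · right
        exact ih h
      · left
        rfl
  exact key T ht

end Pool.Agent.Lib.MP_2b5695_lc.Nw
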