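import Pool.Agent.Lib.MP_2b5695_lc.Nw.Fmt

/-!
The simulation of a computation with an adversary that reads its answers from a table.
-/

namespace Pool.Agent.Lib.MP_2b5695_lc.Nw

open Alg

variable {ι : Ty} {A : Set ι.El} {a b c κ : Ty}

/-- input and table -/
@[reducible] def tyEnv : Ty := .prod .word (.list .word)

section

variable (F : List Bool × List Bool → Bool) (w : List Bool → List Bool)
  (g : κ.El → Bool) (S : List Bool × Ty.history.El → (Ty.move κ).El)

/-- the feasible entries of the table that are better than `Y` -/
def nxtT (v : tyEnv.El) (Y : List Bool) : List (List Bool) :=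
  v.2.filter fun Z => F (v.1, Z) && decide (val (w Y) < val (w Z))

/-- the answer of the adversary to the word `Y` -/
def advT (v : tyEnv.El) (Y : List Bool) : Bool × List Bool :=
  bif Y.isEmpty || F (v.1, Y) then ((nxtT F w v Y).isEmpty, (nxtT F w v Y).headD [])
  else (false, [])

/-- the answer to a move -/
def ansT (v : tyEnv.El) (m : (Ty.move κ).El) : Bool × List Bool :=
  bif m.1.1 && m.1.2 then advT F w v (norm m.2.2) else (m.1.1 && g m.2.1, [])

/-- the history; the length of the list is the number of steps -/
def histT (v : tyEnv.El) : List Bool → List (Bool × List Bool)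
  | [] => []
  | _ :: l => ansT F w g v (S (v.1, histT v l)) :: histT v l

/-- the words of all moves -/
def wordsT (X : List Bool) (h : List (Bool × List Bool)) : List (List Bool) :=
  scan (fun z : (Bool × List Bool) × List (Bool × List Bool) × List Bool =>
    norm (S (z.2.2, z.2.1)).2.2) X h

end

section pf

variable {F : List Bool × List Bool → Bool} {w : List Bool → List Bool} {g : κ.El → Bool}
  {S : List Bool × Ty.history.El → (Ty.move κ).El}

theorem pf_nxtT (hF : PF A (.prod .word .word) .bool F) (hw : PF A .word .word w)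
    {v : a.El → tyEnv.El} {Y : a.El → List Bool} (hv : PF A a tyEnv v) (hY : PF A a .word Y) :
    PF A a (.list .word) (fun s => nxtT F w (v s) (Y s)) := by
  have h1 : PF A (.prod .word a) .bool
      (fun s => F ((v s.2).1, s.1) && decide (val (w (Y s.2)) < val (w s.1))) :=
    (hF.comp ((hv.comp (PF.snd _ _)).fst'.pair (PF.fst _ _))).and'
      ((hw.comp (hY.comp (PF.snd _ _))).valLT (hw.comp (PF.fst _ _)))
  exact PF.filter (b := .word)
    (φ := fun s => F ((v s.2).1, s.1) && decide (val (w (Y s.2)) < val (w s.1))) hv.snd' h1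

theorem pf_advT (hF : PF A (.prod .word .word) .bool F) (hw : PF A .word .word w)
    {v : a.El → tyEnv.El} {Y : a.El → List Bool} (hv : PF A a tyEnv v) (hY : PF A a .word Y) :
    PF A a (.prod .bool .word) (fun s => advT F w (v s) (Y s)) := by
  have h := pf_nxtT hF hw hv hY
  exact (hY.isEmpty.or' (hF.comp (hv.fst'.pair hY))).cond'
    (h.isEmpty.pair (h.headD (PF.nil _ _))) ((PF.ff _).pair (PF.nil _ _))

theorem size_advT (v : tyEnv.El) (Y : List Bool) :
    Ty.size (.prod .bool .word) (advT F w v Y) ≤ tyEnv.size v + 1 := by
  rw [advT]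
  cases Y.isEmpty || F (v.1, Y)
  · simp only [cond_false, size_prod, size_bool, size_word, List.length_nil]
    omega
  · rw [cond_true, size_prod]
    simp only [size_bool]
    cases h : nxtT F w v Y with
    | nil =>
      simp only [List.headD_nil, size_word, List.length_nil]
      omega
    | cons Z l =>
      have h1 : Z ∈ v.2 := by
        have : Z ∈ nxtT F w v Y := by rw [h]; exact List.mem_cons_self
        exact (List.mem_filter.1 this).1
      have h2 := size_mem_le (a := .word) h1
      rw [List.headD_cons, size_prod]
      omega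

theorem pf_ansT (hF : PF A (.prod .word .word) .bool F) (hw : PF A .word .word w)
    (hg : PF A κ .bool g) {v : a.El → tyEnv.El} {m : a.El → (Ty.move κ).El}
    (hv : PF A a tyEnv v) (hm : PF A a (.move κ) m) :
    PF A a (.prod .bool .word) (fun s => ansT F w g (v s) (m s)) :=
  (hm.fst'.fst'.and' hm.fst'.snd').cond' (pf_advT hF hw hv hm.snd'.snd'.norm)
    ((hm.fst'.fst'.and' (hg.comp hm.snd'.fst')).pair (PF.nil _ _))

theorem pf_histT (hF : PF A (.prod .word .word) .bool F) (hw : PF A .word .word w)
    (hg : PF A κ .bool g) (hS : PF A (.prod .word .history) (.move κ) S) {v : a.El → tyEnv.El}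
    {l : a.El → List Bool} (hv : PF A a tyEnv v) (hl : PF A a .word l) :
    PF A a .history (fun s => histT F w g S (v s) (l s)) := by
  obtain ⟨p, hp⟩ := hv.bound
  have hv' : PF A (.prod .bool (.prod .word (.prod a .history))) tyEnv
    (fun z => v z.2.2.1) := hv.comp (PF.snd _ _).snd'.fst'
  have hh : PF A (.prod .bool (.prod .word (.prod a .history))) .history
      (fun z => ansT F w g (v z.2.2.1) (S ((v z.2.2.1).1, z.2.2.2)) :: z.2.2.2) :=
    (pf_ansT hF hw hg hv' (hS.comp (hv'.fst'.pair (PF.snd _ _).snd'.snd'))).cons'
      (PF.snd _ _).snd'.snd'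
  refine PF.rec' (f := fun z => histT F w g S (v z.2) z.1) hl (PF.nil _ _) hh
    (fun s => rfl) (fun e l s => rfl) (p + 3) fun e l s r => ?_
  rw [size_cons (a := .prod .bool .word)]
  have h1 : Ty.size (.prod .bool .word) (ansT F w g (v s) (S ((v s).1, r))) ≤
      tyEnv.size (v s) + 1 := by
    rw [ansT]
    generalize S ((v s).1, r) = m
    cases m.1.1 && m.1.2
    · simp only [cond_false, size_prod, size_bool, size_word, List.length_nil]
      omega
    · rw [cond_true]
      exact size_advT _ _
  have h2 : tyEnv.size (v s) ≤ p.eval (Ty.size .bool e + Ty.size (.list .bool) l + a.size s) :=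
    (hp s).trans (eval_mono _ (Nat.le_add_left _ _))
  simp only [Polynomial.eval_add, Polynomial.eval_ofNat]
  have h3 : Ty.size (.list (.prod .bool .word)) r = Ty.size .history r := rfl
  omega

theorem pf_wordsT (hS : PF A (.prod .word .history) (.move κ) S) {X : a.El → List Bool}
    {h : a.El → Ty.history.El} (hX : PF A a .word X) (hh : PF A a .history h) :
    PF A a (.list .word) (fun s => wordsT S (X s) (h s)) := by
  have h1 : PF A (.prod (.prod .bool .word) (.prod .history .word)) .word
      (fun z => norm (S (z.2.2, z.2.1)).2.2) :=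
    (hS.comp ((PF.snd _ _).snd'.pair (PF.snd _ _).fst')).snd'.snd'.norm
  exact PF.scan (b := .prod .bool .word) (c := .word) h1 hh hX

end pf

/-- a cell of a template: its number in unary, steps, row with open bits -/
@[reducible] def tyTc : Ty := .prod .word (.prod (.list (.prod .word .word))
  (.list (.prod .bool .bool)))

/-- a coordinate of a template -/
@[reducible] def tyTd : Ty := .prod .word (.list tyTc)

/-- a template -/
@[reducible] def tyTi : Ty := .prod (.list tyTd) (.prod tyBnd .word)

/-- a try: template, table, clock -/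
@[reducible] def tyTry : Ty := .prod tyTi (.prod (.list .word) .word)

/-- fill in the bits of `z` -/
def fillC (z : List Bool) (e : tyTc.El) : tyCell.El :=
  (e.2.1, e.2.2.map fun s => bif s.1 then (z.drop e.1.length).headD false else s.2)

/-- fill in the bits of `z` -/
def fillD (z : List Bool) (e : tyTd.El) : tyCrd.El := (e.1, e.2.map fun s => fillC z s)

/-- fill in the bits of `z` -/
def fillI (x z : List Bool) (e : tyTi.El) : tyIns.El := (x, (e.1.map fun s => fillD z s, e.2))

/-- the input word of a try -/
def inW (x z : List Bool) (e : tyTi.El) : List Bool := enc tyIns (fillI x z e) ++ [true]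

theorem pf_fillC {z : a.El → List Bool} {e : a.El → tyTc.El} (hz : PF A a .word z)
    (he : PF A a tyTc e) : PF A a tyCell (fun v => fillC (z v) (e v)) := by
  have h1 : PF A (.prod (.prod .bool .bool) a) .bool
      (fun s => bif s.1.1 then ((z s.2).drop (e s.2).1.length).headD false else s.1.2) :=
    (PF.fst _ _).fst'.cond' ((PF.drop (he.comp (PF.snd _ _)).fst'
      (hz.comp (PF.snd _ _))).headD (PF.ff _)) (PF.fst _ _).snd'
  exact he.snd'.fst'.pair (PF.map (b := .prod .bool .bool) (c := .bool)
    (φ := fun s => bif s.1.1 then ((z s.2).drop (e s.2).1.length).headD false else s.1.2)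
    he.snd'.snd' h1)

theorem pf_fillD {z : a.El → List Bool} {e : a.El → tyTd.El} (hz : PF A a .word z)
    (he : PF A a tyTd e) : PF A a tyCrd (fun v => fillD (z v) (e v)) :=
  he.fst'.pair (PF.map (b := tyTc) (c := tyCell) (φ := fun s => fillC (z s.2) s.1) he.snd'
    (pf_fillC (hz.comp (PF.snd _ _)) (PF.fst _ _)))

theorem pf_fillI {x z : a.El → List Bool} {e : a.El → tyTi.El} (hx : PF A a .word x)
    (hz : PF A a .word z) (he : PF A a tyTi e) :
    PF A a tyIns (fun v => fillI (x v) (z v) (e v)) :=
  hx.pair ((PF.map (b := tyTd) (c := tyCrd) (φ := fun s => fillD (z s.2) s.1) he.fst'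
    (pf_fillD (hz.comp (PF.snd _ _)) (PF.fst _ _))).pair he.snd')

theorem pf_inW {x z : a.El → List Bool} {e : a.El → tyTi.El} (hx : PF A a .word x)
    (hz : PF A a .word z) (he : PF A a tyTi e) :
    PF A a .word (fun v => inW (x v) (z v) (e v)) :=
  (PF.enc tyIns (pf_fillI hx hz he)).append ((PF.tt _).cons' (PF.nil _ _))

section

variable (R : List Bool × (List Bool × List Bool) → Bool) (g : κ.El → Bool)
  (S : List Bool × Ty.history.El → (Ty.move κ).El)

/-- the answers that occur in the simulated computation of a try -/
def candT (x z : List Bool) (e : tyTry.El) : List (List Bool) :=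
  (wordsT S (inW x z e.1) (histT (feasW R) costW g S (inW x z e.1, e.2.1) e.2.2)).flatMap
    fun Y => (decS Y).2

/-- the algorithm -/
def algT (u : List Bool × (List Bool × List Bool)) : List Bool :=
  (((dec (.list tyTry) u.2.2).flatMap fun e => candT R g S u.1 u.2.1 e).filter
    fun y => R (u.1, (u.2.1, y))).headD []

variable {R g S}

theorem pf_candT (hR : PF A (.prod .word (.prod .word .word)) .bool R) (hg : PF A κ .bool g)
    (hS : PF A (.prod .word .history) (.move κ) S) {x z : a.El → List Bool}
    {e : a.El → tyTry.El} (hx : PF A a .word x) (hz : PF A a .word z) (he : PF A a tyTry e) :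
    PF A a (.list .word) (fun v => candT R g S (x v) (z v) (e v)) := by
  have h1 := pf_inW hx hz he.fst'
  exact PF.flatMap (b := .word) (c := .word) (φ := fun s => (decS s.1).2)
    (pf_wordsT hS h1 (pf_histT (pf_feasW hR) (pf_costW (PF.id _)) hg hS
      (h1.pair he.snd'.fst') he.snd'.snd')) (pf_decS (PF.fst _ _)).snd'

theorem pf_algT (hR : PF A (.prod .word (.prod .word .word)) .bool R) (hg : PF A κ .bool g)
    (hS : PF A (.prod .word .history) (.move κ) S) :
    PF A (.prod .word (.prod .word .word)) .word (algT R g S) := by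
  have h1 : PF A (.prod .word (.prod .word .word)) (.list .word)
      (fun u => (dec (.list tyTry) u.2.2).flatMap fun e => candT R g S u.1 u.2.1 e) :=
    PF.flatMap (b := tyTry) (c := .word) (a := .prod .word (.prod .word .word))
      (φ := fun s => candT R g S s.2.1 s.2.2.1 s.1)
      (PF.dec (.list tyTry) (PF.snd _ _).snd')
      (pf_candT hR hg hS (PF.snd _ _).fst' (PF.snd _ _).snd'.fst' (PF.fst _ _))
  exact (PF.filter (b := .word) (a := .prod .word (.prod .word .word))
    (φ := fun s => R (s.2.1, (s.2.2.1, s.1))) h1
    (hR.comp ((PF.snd _ _).fst'.pair ((PF.snd _ _).snd'.fst'.pair (PF.fst _ _))))).headD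
    (PF.nil _ _)

end

end Pool.Agent.Lib.MP_2b5695_lc.Nw
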