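import Pool.Agent.Lib.MP_2b5695_lc.Nw.Find

/-!
The sizes of instances, solutions and tries.
-/

namespace Pool.Agent.Lib.MP_2b5695_lc.Nw

open Alg Finset

variable {m n D L b : ℕ} {R : List Bool × (List Bool × List Bool) → Bool}
  {x : List Bool} {θ room : ℕ} {U : List (List Bool)}

theorem size_un (k : ℕ) : Ty.size .word (un k) = 2 * k := by
  rw [size_word, List.length_replicate]

theorem size_ofFn_le {a : Ty} {m B : ℕ} (f : Fin m → a.El) (h : ∀ k, a.size (f k) ≤ B) :
    Ty.size (.list a) (List.ofFn f) ≤ m * (B + 1) := by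
  induction m with
  | zero => simp
  | succ m ih =>
    rw [List.ofFn_succ, size_cons]
    have h1 := ih (fun i => f i.succ) fun k => h _
    have h2 := h 0
    have h3 : (m + 1) * (B + 1) = m * (B + 1) + (B + 1) := by ring
    omega

theorem size_list_le {a : Ty} {B : ℕ} (l : List a.El) (h : ∀ e ∈ l, a.size e ≤ B) :
    Ty.size (.list a) l ≤ l.length * (B + 1) := by
  induction l with
  | nil => simp
  | cons e l ih =>
    rw [size_cons, List.length_cons]
    have h1 := ih fun e he => h e (List.mem_cons_of_mem _ he)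
    have h2 := h e List.mem_cons_self
    have h3 : (l.length + 1) * (B + 1) = l.length * (B + 1) + (B + 1) := by ring
    omega

/-- the numbers are at most `M` -/
structure Lil (x : List Bool) (m n D L b θ M : ℕ) : Prop where
  hx : x.length ≤ M
  hm : m ≤ M
  hn : n ≤ M
  hD : D ≤ M
  hL : L + 1 ≤ M
  hb : b ≤ M
  hθ : θ ≤ M
  he : ∀ (k : Fin m) (j : Fin n) (i : Fin (L + 1)), ((k : ℕ) * n + j) ^ (i : ℕ) ≤ M

theorem Lil.stp {M : ℕ} (h : Lil x m n D L b θ M) (k : Fin m) (j : Fin n) :
    Ty.size (.list (.prod .word .word)) (stp n L k j) ≤ M * (4 * M + 1) := by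
  refine (size_ofFn_le (a := .prod .word .word) (B := 4 * M) _ fun i => ?_).trans
    (Nat.mul_le_mul_right _ h.hL)
  rw [size_prod]
  simp only [size_un]
  have h1 := h.he k j i
  have h2 := i.2
  have h3 := h.hL
  omega

theorem Lil.ins {M : ℕ} (h : Lil x m n D L b θ M) (a : Fin m → Fin n → Fin D → Bool) :
    tyIns.size (insT x L b θ room a) ≤
      8 * M + 2 * room + M * (2 * M + M * (M * (4 * M + 1) + 2 * M + 1) + 1) := by
  have h1 : Ty.size (.list tyCrd) (crdT L a) ≤
      M * (2 * M + M * (M * (4 * M + 1) + 2 * M + 1) + 1) := by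
    refine (size_ofFn_le (a := tyCrd)
      (B := 2 * M + M * (M * (4 * M + 1) + 2 * M + 1)) _ fun k => ?_).trans
      (Nat.mul_le_mul_right _ h.hm)
    rw [size_prod]
    simp only [size_un]
    have h2 : Ty.size (.list tyCell)
        (List.ofFn fun j : Fin n => (Nw.stp n L k j, List.ofFn (a k j))) ≤
        M * (M * (4 * M + 1) + 2 * M + 1) := by
      refine (size_ofFn_le (a := tyCell) (B := M * (4 * M + 1) + 2 * M) _ fun j => ?_).trans
        (Nat.mul_le_mul_right _ h.hn)
      rw [size_prod]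
      simp only
      have h3 := h.stp k j
      have h4 : Ty.size .word (List.ofFn (a k j)) = 2 * D := by
        rw [size_word, List.length_ofFn]
      have h5 := h.hD
      omega
    have h6 := k.2
    have h7 := h.hm
    omega
  have h8 : tyIns.size (insT x L b θ room a) = 2 * x.length +
      (Ty.size (.list tyCrd) (crdT L a) + ((2 * (L + 1) + (2 * b + 2 * θ)) + 2 * room)) := by
    simp only [insT, bndT, size_prod, size_word, List.length_replicate]
  have h9 := h.hx
  have h10 := h.hL
  have h11 := h.hb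
  have h12 := h.hθ
  omega

theorem Lil.tm {M : ℕ} (h : Lil x m n D L b θ M) (a : Fin m → Fin n → Fin D → Bool)
    (p : Fin (L + 1) → Fin b) (k₀ : Fin m) :
    tyTi.size (tmT θ room a p k₀) ≤
      8 * M + 2 * room + M * (2 * M + M * (M * (4 * M + 1) + 5 * M + 1) + 1) := by
  have h1 : Ty.size (.list tyTd) (tmT θ room a p k₀).1 ≤
      M * (2 * M + M * (M * (4 * M + 1) + 5 * M + 1) + 1) := by
    refine (size_ofFn_le (a := tyTd)
      (B := 2 * M + M * (M * (4 * M + 1) + 5 * M + 1)) _ fun k => ?_).trans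
      (Nat.mul_le_mul_right _ h.hm)
    rw [size_prod]
    simp only [size_un]
    have h2 : Ty.size (.list tyTc) (List.ofFn fun j : Fin n => (un j, (Nw.stp n L k j,
        List.ofFn fun d : Fin D => (decide (k = k₀ ∧ (d : ℕ) = ix n p k j), a k j d)))) ≤
        M * (M * (4 * M + 1) + 5 * M + 1) := by
      refine (size_ofFn_le (a := tyTc) (B := M * (4 * M + 1) + 5 * M) _ fun j => ?_).trans
        (Nat.mul_le_mul_right _ h.hn)
      rw [size_prod, size_prod]
      simp only [size_un]
      have h3 := h.stp k j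
      have h4 : Ty.size (.list (.prod .bool .bool)) (List.ofFn fun d : Fin D =>
          (decide (k = k₀ ∧ (d : ℕ) = ix n p k j), a k j d)) ≤ D * (2 + 1) :=
        size_ofFn_le (a := .prod .bool .bool) (B := 2) _ fun d => le_of_eq rfl
      have h5 := h.hD
      have h6 := j.2
      have h7 := h.hn
      omega
    have h6 := k.2
    have h7 := h.hm
    omega
  have h8 : tyTi.size (tmT θ room a p k₀) =
      Ty.size (.list tyTd) (tmT θ room a p k₀).1 + ((2 * (L + 1) + (2 * b + 2 * θ)) + 2 * room) := by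
    simp only [tmT, bndT, size_prod, size_word, List.length_replicate]
  have h10 := h.hL
  have h11 := h.hb
  have h12 := h.hθ
  omega

theorem size_tabT (hU0 : U.Nodup) (hU1 : ∀ Z ∈ U, Z.length ≤ room)
    (hU3 : U.Pairwise fun Z Z' => val (costW Z) ≤ val (costW Z'))
    (a : Fin m → Fin n → Fin D → Bool) (p : Fin (L + 1) → Fin b) :
    Ty.size (.list .word) (tabT R x θ room U a p) ≤ b ^ (L + 1) * 2 ^ L * (2 * room + 1) := by
  refine (size_list_le (a := .word) (B := 2 * room) _ fun Z hZ => ?_).trans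
    (Nat.mul_le_mul_right _ (length_tabT R x θ room U hU0 hU3 a p))
  rw [size_word]
  have := hU1 Z (List.mem_filter.1 hZ).1
  omega

theorem Lil.slt {M w : ℕ} (h : Lil x m n D L b θ M) (p : Fin (L + 1) → Fin b)
    {ys : Fin m → List Bool} (hys : ∀ k, (ys k).length ≤ w) :
    tySlt.size (digT p, List.ofFn ys) ≤ M * (2 * M + 1) + M * (2 * w + 1) := by
  rw [size_prod]
  refine Nat.add_le_add ?_ ?_
  · refine (size_ofFn_le (a := .word) (B := 2 * M) _ fun i => ?_).trans
      (Nat.mul_le_mul_right _ h.hL)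
    rw [size_un]
    have h1 := (p i).2
    have h2 := h.hb
    omega
  · refine (size_ofFn_le (a := .word) (B := 2 * w) _ fun k => ?_).trans
      (Nat.mul_le_mul_right _ h.hm)
    rw [size_word]
    have := hys k
    omega

/-- the length of the code of an object -/
theorem exists_enc_le (a : Ty) : ∃ P : Polynomial ℕ, ∀ v : a.El,
    (enc a v).length ≤ P.eval (a.size v) := by
  obtain ⟨P, hP⟩ := (PF.enc (A := (∅ : Set Ty.bool.El)) a (PF.id a)).bound
  refine ⟨P, fun v => ?_⟩
  have h1 := hP v
  rw [size_word] at h1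
  omega

/-- polynomials are bounded by powers -/
theorem exists_pow_le (H : Polynomial ℕ) : ∃ a : ℕ, ∀ x : ℕ, H.eval x ≤ (x + 2) ^ a := by
  induction H using Polynomial.induction_on' with
  | add p q hp hq =>
    obtain ⟨a, ha⟩ := hp
    obtain ⟨a', ha'⟩ := hq
    refine ⟨a + a' + 1, fun x => ?_⟩
    rw [Polynomial.eval_add]
    have h1 : (x + 2) ^ a ≤ (x + 2) ^ (a + a') := Nat.pow_le_pow_right (by omega) (by omega)
    have h2 : (x + 2) ^ a' ≤ (x + 2) ^ (a + a') := Nat.pow_le_pow_right (by omega) (by omega)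
    have h3 : (x + 2) ^ (a + a' + 1) = (x + 2) ^ (a + a') * (x + 2) := pow_succ _ _
    have h4 : (x + 2) ^ (a + a') * 2 ≤ (x + 2) ^ (a + a') * (x + 2) :=
      Nat.mul_le_mul_left _ (by omega)
    have h5 := ha x
    have h6 := ha' x
    omega
  | monomial k c =>
    refine ⟨c + k, fun x => ?_⟩
    rw [Polynomial.eval_monomial, pow_add]
    refine Nat.mul_le_mul ?_ (Nat.pow_le_pow_left (by omega) _)
    exact (Nat.lt_two_pow_self (n := c)).le.trans (Nat.pow_le_pow_left (by omega) _)

/-- exponentials win -/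
theorem exists_lt_exp (E : ℕ) : ∃ s0 : ℕ, ∀ s : ℕ, s0 ≤ s →
    8 * (s : ℝ) ^ E < Real.exp ((s : ℝ) / 16) := by
  have h1 := Real.tendsto_pow_mul_exp_neg_atTop_nhds_zero E
  have h2 : Filter.Tendsto (fun s : ℕ => (s : ℝ) / 16) Filter.atTop Filter.atTop :=
    Filter.Tendsto.atTop_div_const (by norm_num) tendsto_natCast_atTop_atTop
  have h3 := h1.comp h2
  have h4 : (0 : ℝ) < 1 / (8 * 16 ^ E) := by positivity
  have h5 := (h3.eventually (gt_mem_nhds h4)).exists_forall_of_atTop
  obtain ⟨s0, hs0⟩ := h5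
  refine ⟨s0, fun s hs => ?_⟩
  have h6 := hs0 s hs
  simp only [Function.comp_apply] at h6
  rw [Real.exp_neg, div_pow, ← div_eq_mul_inv, div_div, div_lt_div_iff₀ (by positivity)
    (by positivity)] at h6
  have h7 : (0 : ℝ) < 16 ^ E := by positivity
  nlinarith [Real.exp_pos ((s : ℝ) / 16)]

end Pool.Agent.Lib.MP_2b5695_lc.Nw
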